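import Mathlib

/-!
# MP_0d30b1_gt : jet identification numbers of points of the Monster tower, `n ≥ 3`

We prove that for all `n ≥ 3` and `k ≥ 2` no point of `P^k(n)` other than a Cartan point has a
jet identification number.

## How the objects are represented

* A germ of a holomorphic function at `0` is a power series with positive radius of convergence
  (`Convergent`); a curve germ `(ℂ,0) → ℂⁿ` is a vector of such series (`CurveGerm`).

* The Monster tower is described in its standard Kumpera-Ruiz coordinates.  Over a point `p_i` of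
  `P^i(n)` the distribution `Δ_i(p_i)` has a coframe `dA_1, ..., dA_n` given by the `n` *active
  coordinates* of level `i` (at level `0`: the coordinates of `ℂⁿ`).  A line `ℓ ⊂ Δ_i(p_i)` is
  given by its direction vector; if its component number `a` (the *pivot*) is nonzero, the vector
  is normalised to have component `1` at `a`, and the active coordinates of level `i+1` near
  `(p_i, ℓ)` are: the retained coordinate `A_a` and the slopes `dA_b / dA_a`, `b ≠ a`.
  The pivot is kept as long as the direction is not vertical (condition `keep`); every point of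
  `P^k(n)` has such an address.  So a point of `P^k(n)` is given by a base point, pivots and
  normalised direction vectors (`TowerPoint`).

* `IsLift p γ A` says that the prolongations of `γ` have, in these coordinates, the active
  coordinates `A i` (`i = 0, ..., k`) along the curve, and that `γ^k(0) = p`.  Slopes across the
  zeros of the derivative are obtained by analytic extension, i.e. by division of power series.

* The fibre `F_{j+1}` of `P^{j+1}(n) → P^j(n)` has tangent space `dA_a = 0` (`a` the pivot number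
  `j`) in `Δ_{j+1}`, and its prolongation to level `k` passes through `p` iff all later direction
  vectors have component `0` at `a`; then its distribution at `p` is the hyperplane `dA_a = 0` of
  `Δ_k(p)`.  So the critical hyperplanes at `p` are the coordinate hyperplanes of the critical
  indices (`TowerPoint.Critical`).
-/

open PowerSeries

noncomputable section

namespace Pool.Agent.Results.MP_0d30b1_gt.NoJetId

/-- A power series with positive radius of convergence, i.e. the Taylor series at `0` of a germ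
of a holomorphic function. -/
def Convergent (f : ℂ⟦X⟧) : Prop :=
  ∃ ρ : ℝ, 0 < ρ ∧ Summable (fun i : ℕ => ‖coeff i f‖ * ρ ^ i)

/-- A non-constant holomorphic curve germ from `(ℂ, 0)` to `ℂⁿ`. -/
structure CurveGerm {n : ℕ} (γ : Fin n → ℂ⟦X⟧) : Prop where
  convergent : ∀ b, Convergent (γ b)
  nonconstant : ∃ b, d⁄dX ℂ (γ b) ≠ 0

/-- A point `p` of `P^k(n)`, in Kumpera-Ruiz coordinates: the base point in `ℂⁿ` and, for
`i < k`, the line `p_{i+1} ⊂ Δ_i(p_i)`, spanned by `dir i`, which has component `1` at the pivot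
`piv i`.  The pivot is kept when the next line is not vertical, i.e. has nonzero component at the
previous pivot.  Only the entries with index `< k` matter. -/
structure TowerPoint (n k : ℕ) where
  base : Fin n → ℂ
  piv : ℕ → Fin n
  dir : ℕ → Fin n → ℂ
  dir_piv : ∀ i < k, dir i (piv i) = 1
  keep : ∀ i, i + 1 < k → dir (i + 1) (piv i) ≠ 0 → piv (i + 1) = piv i

/-- `γ^k(0) = p`, and `A i` (`i ≤ k`) are the active coordinates of the `i`-fold prolongation of
`γ`: the pivot coordinate is retained, the others are replaced by the slopes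
`dA_b / dA_{piv i}`, whose values at `0` are the components of the line `dir i`. -/
structure IsLift {n k : ℕ} (p : TowerPoint n k) (γ : Fin n → ℂ⟦X⟧)
    (A : ℕ → Fin n → ℂ⟦X⟧) : Prop where
  start : A 0 = γ
  base : ∀ b, constantCoeff (γ b) = p.base b
  indep : ∀ i < k, d⁄dX ℂ (A i (p.piv i)) ≠ 0
  retain : ∀ i < k, A (i + 1) (p.piv i) = A i (p.piv i)
  slope : ∀ i < k, ∀ b, b ≠ p.piv i →
    d⁄dX ℂ (A i b) = A (i + 1) b * d⁄dX ℂ (A i (p.piv i))
  value : ∀ i < k, ∀ b, b ≠ p.piv i → constantCoeff (A (i + 1) b) = p.dir i b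

/-- The indices `a` such that `dA_a = 0` is a critical hyperplane of `Δ_k(p)`: `a` is a pivot and
all later direction vectors have component `0` at `a`. -/
def TowerPoint.Critical {n k : ℕ} (p : TowerPoint n k) (a : Fin n) : Prop :=
  ∃ j < k, p.piv j = a ∧ ∀ l, j < l → l < k → p.dir l a = 0

/-- `Germ(p)`: the curve germs `γ` with `γ^k(0) = p`, `γ^k` immersed at `0`, and the derivative of
`γ^k` at `0` in no critical hyperplane. -/
def TowerPoint.Germ {n k : ℕ} (p : TowerPoint n k) : Set (Fin n → ℂ⟦X⟧) :=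
  {γ | CurveGerm γ ∧ ∃ A, IsLift p γ A ∧ (∃ b, coeff 1 (A k b) ≠ 0) ∧
    ∀ a, p.Critical a → coeff 1 (A k a) ≠ 0}

/-- Cartan points: `p = γ^k(0)` for an immersed curve germ `γ`. -/
def TowerPoint.Cartan {n k : ℕ} (p : TowerPoint n k) : Prop :=
  ∃ γ, CurveGerm γ ∧ (∃ b, coeff 1 (γ b) ≠ 0) ∧ ∃ A, IsLift p γ A

/-- `j^r γ =_rep β`: the `r`-jet of `γ ∘ τ` is `β` for a local biholomorphism `τ` of `(ℂ, 0)`. -/
def JetRep {n : ℕ} (r : ℕ) (γ : Fin n → ℂ⟦X⟧) (β : Fin n → ℕ → ℂ) : Prop :=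
  ∃ τ : ℂ⟦X⟧, Convergent τ ∧ constantCoeff τ = 0 ∧ coeff 1 τ ≠ 0 ∧
    ∀ b, ∀ i ≤ r, coeff i ((γ b).subst τ) = β b i

/-- `p` has jet identification number `r`. -/
def TowerPoint.HasJetId {n k : ℕ} (p : TowerPoint n k) (r : ℕ) : Prop :=
  ∃ β : Fin n → ℕ → ℂ, p.Germ = {γ | CurveGerm γ ∧ JetRep r γ β}

/-! ## Orders of power series and substitutions -/

/-- derivative -/
abbrev D (f : ℂ⟦X⟧) : ℂ⟦X⟧ := d⁄dX ℂ f

/-- exact order -/
def HasOrd (m : ℕ) (f : ℂ⟦X⟧) : Prop := (X : ℂ⟦X⟧) ^ m ∣ f ∧ coeff m f ≠ 0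

lemma coeff_D (f : ℂ⟦X⟧) (i : ℕ) : coeff i (D f) = coeff (i + 1) f * (i + 1) := by
  simp [D, coeff_derivative]

lemma dvd_D {s : ℕ} {f : ℂ⟦X⟧} (h : (X : ℂ⟦X⟧) ^ (s + 1) ∣ f) : (X : ℂ⟦X⟧) ^ s ∣ D f := by
  rw [X_pow_dvd_iff] at h ⊢
  intro m hm
  rw [coeff_D, h (m + 1) (by omega), zero_mul]

lemma dvd_of_D {s : ℕ} {f : ℂ⟦X⟧} (h : (X : ℂ⟦X⟧) ^ s ∣ D f) (h0 : constantCoeff f = 0) :
    (X : ℂ⟦X⟧) ^ (s + 1) ∣ f := by
  rw [X_pow_dvd_iff] at h ⊢
  intro m hm
  rcases m with _ | m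
  · simpa using h0
  · have := h m (by omega)
    rw [coeff_D] at this
    rcases mul_eq_zero.1 this with h1 | h1
    · exact h1
    · exfalso; exact Nat.cast_add_one_ne_zero m h1

lemma HasOrd.exists_unit {m : ℕ} {f : ℂ⟦X⟧} (h : HasOrd m f) :
    ∃ u : ℂ⟦X⟧, f = X ^ m * u ∧ constantCoeff u ≠ 0 ∧ constantCoeff u = coeff m f := by
  obtain ⟨u, hu⟩ := h.1
  refine ⟨u, hu, ?_, ?_⟩
  · intro h0
    apply h.2
    rw [hu, show m = 0 + m by omega, pow_add, pow_zero, one_mul, coeff_X_pow_mul']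
    simp [h0]
  · rw [hu, coeff_X_pow_mul']
    simp

lemma hasOrd_of_unit {m : ℕ} {u : ℂ⟦X⟧} (h : constantCoeff u ≠ 0) : HasOrd m (X ^ m * u) := by
  refine ⟨dvd_mul_right _ _, ?_⟩
  rw [coeff_X_pow_mul']
  simpa using h

lemma HasOrd.mul {a b : ℕ} {f g : ℂ⟦X⟧} (hf : HasOrd a f) (hg : HasOrd b g) :
    HasOrd (a + b) (f * g) := by
  obtain ⟨u, rfl, hu, -⟩ := hf.exists_unit
  obtain ⟨v, rfl, hv, -⟩ := hg.exists_unit
  have : X ^ a * u * (X ^ b * v) = X ^ (a + b) * (u * v) := by ring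
  rw [this]
  apply hasOrd_of_unit
  rw [map_mul]
  exact mul_ne_zero hu hv

lemma HasOrd.ne_zero {a : ℕ} {f : ℂ⟦X⟧} (hf : HasOrd a f) : f ≠ 0 := by
  rintro rfl
  exact hf.2 (by simp)

lemma HasOrd.unique {a b : ℕ} {f : ℂ⟦X⟧} (ha : HasOrd a f) (hb : HasOrd b f) : a = b := by
  by_contra hne
  rcases Nat.lt_or_gt_of_ne hne with h | h
  · exact ha.2 ((X_pow_dvd_iff.1 hb.1) a h)
  · exact hb.2 ((X_pow_dvd_iff.1 ha.1) b h)

lemma HasOrd.le_of_dvd {a b : ℕ} {f : ℂ⟦X⟧} (ha : HasOrd a f) (hb : (X : ℂ⟦X⟧) ^ b ∣ f) :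
    b ≤ a := by
  by_contra h
  exact ha.2 ((X_pow_dvd_iff.1 hb) a (by omega))

lemma exists_hasOrd {f : ℂ⟦X⟧} (hf : f ≠ 0) : ∃ a, HasOrd a f := by
  classical
  have hex : ∃ i, coeff i f ≠ 0 := by
    by_contra h
    push Not at h
    exact hf (PowerSeries.ext (by simpa using h))
  refine ⟨Nat.find hex, ?_, Nat.find_spec hex⟩
  rw [X_pow_dvd_iff]
  intro m hm
  have := Nat.find_min hex hm
  push Not at this
  exact this

/-- cancellation -/
lemma dvd_cancel {s m : ℕ} {f g : ℂ⟦X⟧} (hg : HasOrd m g)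
    (h : (X : ℂ⟦X⟧) ^ (s + m) ∣ f * g) : (X : ℂ⟦X⟧) ^ s ∣ f := by
  obtain ⟨u, rfl, hu, -⟩ := hg.exists_unit
  have hu' : IsUnit u := by
    rw [PowerSeries.isUnit_iff_constantCoeff]
    exact isUnit_iff_ne_zero.2 hu
  have h1 : (X : ℂ⟦X⟧) ^ (s + m) = X ^ s * X ^ m := pow_add _ _ _
  have h2 : f * (X ^ m * u) = (f * u) * X ^ m := by ring
  rw [h1, h2] at h
  have h3 : (X : ℂ⟦X⟧) ^ s ∣ f * u :=
    (mul_dvd_mul_iff_right (pow_ne_zero m X_ne_zero)).1 h
  exact (hu'.dvd_mul_right).1 h3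

lemma hasOrd_of_mul {s m : ℕ} {f g : ℂ⟦X⟧} (hg : HasOrd m g) (h : HasOrd (s + m) (f * g)) :
    HasOrd s f := by
  refine ⟨dvd_cancel hg h.1, ?_⟩
  obtain ⟨v, hv⟩ := dvd_cancel hg h.1
  intro h0
  obtain ⟨u, rfl, hu, -⟩ := hg.exists_unit
  apply h.2
  have : f * (X ^ m * u) = X ^ (s + m) * (v * u) := by rw [hv]; ring
  rw [this, coeff_X_pow_mul']
  have hv0 : constantCoeff v = 0 := by
    rw [hv, coeff_X_pow_mul'] at h0
    simpa using h0
  simp [hv0]

/-- monotonicity of divisibility -/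
lemma dvd_mono {a b : ℕ} {f : ℂ⟦X⟧} (hab : a ≤ b) (h : (X : ℂ⟦X⟧) ^ b ∣ f) :
    (X : ℂ⟦X⟧) ^ a ∣ f := (pow_dvd_pow _ hab).trans h

/-- parameter changes -/
structure Par (τ : ℂ⟦X⟧) : Prop where
  zero : constantCoeff τ = 0
  one : coeff 1 τ ≠ 0

lemma Par.hasSubst {τ : ℂ⟦X⟧} (h : Par τ) : HasSubst τ := HasSubst.of_constantCoeff_zero' h.zero

lemma hs {τ : ℂ⟦X⟧} (h : constantCoeff τ = 0) : HasSubst τ := HasSubst.of_constantCoeff_zero' h

lemma dvd_self_of_zero {τ : ℂ⟦X⟧} (h : constantCoeff τ = 0) : (X : ℂ⟦X⟧) ∣ τ :=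
  X_dvd_iff.2 h

lemma subst_X_pow_mul {τ : ℂ⟦X⟧} (h : constantCoeff τ = 0) (s : ℕ) (g : ℂ⟦X⟧) :
    (X ^ s * g).subst τ = τ ^ s * g.subst τ := by
  rw [subst_mul (hs h), subst_pow (hs h), subst_X (hs h)]

lemma dvd_subst {τ : ℂ⟦X⟧} (h : constantCoeff τ = 0) {s : ℕ} {f : ℂ⟦X⟧}
    (hf : (X : ℂ⟦X⟧) ^ s ∣ f) : (X : ℂ⟦X⟧) ^ s ∣ f.subst τ := by
  obtain ⟨g, rfl⟩ := hf
  rw [subst_X_pow_mul h]
  exact Dvd.dvd.mul_right (pow_dvd_pow_of_dvd (dvd_self_of_zero h) s) _

lemma const_subst {τ : ℂ⟦X⟧} (h : constantCoeff τ = 0) (f : ℂ⟦X⟧) :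
    constantCoeff (f.subst τ) = constantCoeff f := by
  have h1 : f = C (constantCoeff f) + X * (PowerSeries.mk fun p => coeff (p + 1) f) := by
    rw [add_comm]; exact (eq_X_mul_shift_add_const f)
  conv_lhs => rw [h1]
  rw [subst_add (hs h), subst_mul (hs h), subst_X (hs h)]
  have : (C (constantCoeff f) : ℂ⟦X⟧).subst τ = C (constantCoeff f) := subst_C _
  rw [this, map_add, map_mul, h]
  simp

lemma hasOrd_subst {τ : ℂ⟦X⟧} (h : Par τ) {s : ℕ} {f : ℂ⟦X⟧} (hf : HasOrd s f) :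
    HasOrd s (f.subst τ) := by
  obtain ⟨u, rfl, hu, -⟩ := hf.exists_unit
  rw [subst_X_pow_mul h.zero]
  obtain ⟨t, ht⟩ := dvd_self_of_zero h.zero
  have ht0 : constantCoeff t ≠ 0 := by
    intro h0
    apply h.one
    rw [ht]
    have := coeff_succ_X_mul 0 t
    simpa [h0] using this
  have : τ ^ s * u.subst τ = X ^ s * (t ^ s * u.subst τ) := by
    conv_lhs => rw [show τ ^ s = (X * t) ^ s by rw [← ht]]
    ring
  rw [this]
  apply hasOrd_of_unit
  rw [map_mul, map_pow, const_subst h.zero]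
  exact mul_ne_zero (pow_ne_zero _ ht0) hu

lemma D_subst {τ : ℂ⟦X⟧} (h : constantCoeff τ = 0) (f : ℂ⟦X⟧) :
    D (f.subst τ) = (D f).subst τ * D τ := derivative_subst (hs h)

lemma coeff_one_mul_of {τ : ℂ⟦X⟧} : coeff 0 (D τ) = coeff 1 τ := by
  rw [coeff_D]; simp

lemma Par.hasOrd_D {τ : ℂ⟦X⟧} (h : Par τ) : HasOrd 0 (D τ) := by
  refine ⟨by simp, ?_⟩
  rw [coeff_one_mul_of]; exact h.one

/-- closeness of substitutions -/
lemma subst_close {τ₁ τ₂ : ℂ⟦X⟧} (h1 : constantCoeff τ₁ = 0) (h2 : constantCoeff τ₂ = 0) {N : ℕ}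
    (h : (X : ℂ⟦X⟧) ^ N ∣ τ₁ - τ₂) (f : ℂ⟦X⟧) :
    (X : ℂ⟦X⟧) ^ N ∣ f.subst τ₁ - f.subst τ₂ := by
  rw [X_pow_dvd_iff]
  intro m hm
  rw [map_sub, coeff_subst' (hs h1), coeff_subst' (hs h2), sub_eq_zero]
  apply finsum_congr
  intro d
  congr 1
  have h3 : (X : ℂ⟦X⟧) ^ N ∣ τ₁ ^ d - τ₂ ^ d := h.trans (sub_dvd_pow_sub_pow _ _ _)
  have h4 := (X_pow_dvd_iff.1 h3) m hm
  rw [map_sub, sub_eq_zero] at h4
  exact h4

lemma dvd_pow_of_zero {τ : ℂ⟦X⟧} (h : constantCoeff τ = 0) (s : ℕ) : (X : ℂ⟦X⟧) ^ s ∣ τ ^ s :=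
  pow_dvd_pow_of_dvd (dvd_self_of_zero h) s

/-- decomposition -/
lemma decomp {e : ℕ} {f : ℂ⟦X⟧} (h : (X : ℂ⟦X⟧) ^ e ∣ D f) :
    ∃ g : ℂ⟦X⟧, f = C (constantCoeff f) + X ^ (e + 1) * g ∧ constantCoeff g = coeff (e + 1) f := by
  have h1 : (X : ℂ⟦X⟧) ^ (e + 1) ∣ f - C (constantCoeff f) := by
    apply dvd_of_D
    · have : D (f - C (constantCoeff f)) = D f := by
        simp [D]
      rw [this]; exact h
    · simp
  obtain ⟨g, hg⟩ := h1
  have hf : f = C (constantCoeff f) + X ^ (e + 1) * g := by rw [← hg]; ring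
  refine ⟨g, hf, ?_⟩
  conv_rhs => rw [hf]
  rw [map_add, coeff_X_pow_mul']
  simp [coeff_C]

lemma subst_decomp {τ : ℂ⟦X⟧} (h : constantCoeff τ = 0) {e : ℕ} {f g : ℂ⟦X⟧} {c : ℂ}
    (hf : f = C c + X ^ (e + 1) * g) :
    f.subst τ = C c + τ ^ (e + 1) * g.subst τ := by
  rw [hf, subst_add (hs h), subst_X_pow_mul h]
  congr 1
  exact subst_C _

/-- C3 -/
lemma subst_close' {τ₁ τ₂ : ℂ⟦X⟧} (h1 : constantCoeff τ₁ = 0) (h2 : constantCoeff τ₂ = 0)
    {N e : ℕ} (h : (X : ℂ⟦X⟧) ^ N ∣ τ₁ - τ₂) {f : ℂ⟦X⟧} (hf : (X : ℂ⟦X⟧) ^ e ∣ D f) :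
    (X : ℂ⟦X⟧) ^ (N + e) ∣ f.subst τ₁ - f.subst τ₂ := by
  obtain ⟨g, hg, -⟩ := decomp hf
  rw [subst_decomp h1 hg, subst_decomp h2 hg]
  have key : C (constantCoeff f) + τ₁ ^ (e + 1) * subst τ₁ g -
      (C (constantCoeff f) + τ₂ ^ (e + 1) * subst τ₂ g) =
      τ₁ ^ (e + 1) * (subst τ₁ g - subst τ₂ g) + (τ₁ ^ (e + 1) - τ₂ ^ (e + 1)) * subst τ₂ g := by
    ring
  rw [key]
  apply dvd_add
  · have : (X : ℂ⟦X⟧) ^ (N + e) ∣ X ^ (e + 1) * X ^ N := by
      rw [← pow_add]; exact pow_dvd_pow _ (by omega)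
    exact this.trans (mul_dvd_mul (dvd_pow_of_zero h1 _) (subst_close h1 h2 h g))
  · apply Dvd.dvd.mul_right
    rw [← (Commute.all τ₁ τ₂).geom_sum₂_mul (e + 1), mul_comm, pow_add]
    apply mul_dvd_mul h
    apply Finset.dvd_sum
    intro i hi
    have hi' := Finset.mem_range.1 hi
    have : (X : ℂ⟦X⟧) ^ e = X ^ i * X ^ (e + 1 - 1 - i) := by
      rw [← pow_add]; congr 1; omega
    rw [this]
    exact mul_dvd_mul (dvd_pow_of_zero h1 _) (dvd_pow_of_zero h2 _)

/-- C5: the leading coefficient -/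
lemma coeff_subst_sub {τ₁ τ₂ : ℂ⟦X⟧} (h1 : constantCoeff τ₁ = 0) (h2 : constantCoeff τ₂ = 0)
    (hl : coeff 1 τ₁ = coeff 1 τ₂)
    {N e : ℕ} (h : (X : ℂ⟦X⟧) ^ N ∣ τ₁ - τ₂) {f : ℂ⟦X⟧} (hf : (X : ℂ⟦X⟧) ^ e ∣ D f) :
    coeff (N + e) (f.subst τ₁ - f.subst τ₂) =
      coeff (e + 1) f * ((e + 1) * coeff 1 τ₁ ^ e * coeff N (τ₁ - τ₂)) := by
  obtain ⟨g, hg, hg0⟩ := decomp hf
  rw [subst_decomp h1 hg, subst_decomp h2 hg]
  have key : C (constantCoeff f) + τ₁ ^ (e + 1) * subst τ₁ g -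
      (C (constantCoeff f) + τ₂ ^ (e + 1) * subst τ₂ g) =
      τ₁ ^ (e + 1) * (subst τ₁ g - subst τ₂ g) + (τ₁ ^ (e + 1) - τ₂ ^ (e + 1)) * subst τ₂ g := by
    ring
  rw [key, map_add]
  have hz : coeff (N + e) (τ₁ ^ (e + 1) * (subst τ₁ g - subst τ₂ g)) = 0 := by
    have h3 : (X : ℂ⟦X⟧) ^ (N + e + 1) ∣ τ₁ ^ (e + 1) * (subst τ₁ g - subst τ₂ g) := by
      have : (X : ℂ⟦X⟧) ^ (N + e + 1) = X ^ (e + 1) * X ^ N := by
        rw [← pow_add]; congr 1; omega
      rw [this]
      exact mul_dvd_mul (dvd_pow_of_zero h1 _) (subst_close h1 h2 h g)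
    exact (X_pow_dvd_iff.1 h3) _ (by omega)
  rw [hz, zero_add]
  obtain ⟨t₁, ht₁⟩ := dvd_self_of_zero h1
  obtain ⟨t₂, ht₂⟩ := dvd_self_of_zero h2
  obtain ⟨δ, hδ⟩ := h
  have c1 : coeff 1 τ₁ = constantCoeff t₁ := by
    rw [ht₁]; simpa using coeff_succ_X_mul 0 t₁
  have c2 : coeff 1 τ₂ = constantCoeff t₂ := by
    rw [ht₂]; simpa using coeff_succ_X_mul 0 t₂
  have hsum : (∑ i ∈ Finset.range (e + 1), τ₁ ^ i * τ₂ ^ (e + 1 - 1 - i)) =
      X ^ e * ∑ i ∈ Finset.range (e + 1), t₁ ^ i * t₂ ^ (e - i) := by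
    rw [Finset.mul_sum]
    apply Finset.sum_congr rfl
    intro i hi
    have hi' := Finset.mem_range.1 hi
    have : (X : ℂ⟦X⟧) ^ e = X ^ i * X ^ (e - i) := by
      rw [← pow_add]; congr 1; omega
    rw [this, ht₁, ht₂, mul_pow, mul_pow, show e + 1 - 1 - i = e - i by omega]
    ring
  rw [← (Commute.all τ₁ τ₂).geom_sum₂_mul (e + 1), hsum, hδ]
  have : X ^ e * (∑ i ∈ Finset.range (e + 1), t₁ ^ i * t₂ ^ (e - i)) * (X ^ N * δ) * subst τ₂ g =
      X ^ (N + e) * ((∑ i ∈ Finset.range (e + 1), t₁ ^ i * t₂ ^ (e - i)) * δ * subst τ₂ g) := by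
    ring
  rw [this, coeff_X_pow_mul', coeff_X_pow_mul']
  simp only [le_refl, if_true, Nat.sub_self, coeff_zero_eq_constantCoeff, map_mul, map_sum, map_pow]
  rw [const_subst h2, hg0, ← c1, ← c2, ← hl]
  have : ∑ i ∈ Finset.range (e + 1), coeff 1 τ₁ ^ i * coeff 1 τ₁ ^ (e - i) =
      (e + 1) * coeff 1 τ₁ ^ e := by
    rw [Finset.sum_congr rfl (g := fun _ => coeff 1 τ₁ ^ e)]
    · simp
    · intro i hi
      have hi' := Finset.mem_range.1 hi
      rw [← pow_add]; congr 1; omega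
  rw [this]
  ring

/-- C4 -/
lemma par_close {τ₁ τ₂ : ℂ⟦X⟧} (h1 : Par τ₁) (h2 : Par τ₂) (hl : coeff 1 τ₁ = coeff 1 τ₂)
    {e : ℕ} {f : ℂ⟦X⟧} (hf : HasOrd e (D f)) :
    ∀ N, (X : ℂ⟦X⟧) ^ (N + e) ∣ f.subst τ₁ - f.subst τ₂ → (X : ℂ⟦X⟧) ^ N ∣ τ₁ - τ₂ := by
  intro N
  induction N with
  | zero => intro _; simp
  | succ N ih =>
    intro h
    have hN := ih (dvd_mono (by omega) h)
    have hc := coeff_subst_sub h1.zero h2.zero hl hN hf.1
    rw [(X_pow_dvd_iff.1 h) (N + e) (by omega)] at hc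
    have hfe : coeff (e + 1) f ≠ 0 := by
      intro h0; apply hf.2; rw [coeff_D, h0, zero_mul]
    have hc' : coeff N (τ₁ - τ₂) = 0 := by
      have h3 : coeff (e + 1) f * ((e + 1) * coeff 1 τ₁ ^ e) * coeff N (τ₁ - τ₂) = 0 := by
        rw [hc]; ring
      rcases mul_eq_zero.1 h3 with h4 | h4
      · exfalso
        rcases mul_eq_zero.1 h4 with h5 | h5
        · exact hfe h5
        · rcases mul_eq_zero.1 h5 with h6 | h6
          · exact Nat.cast_add_one_ne_zero e h6
          · exact pow_ne_zero e h1.one h6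
      · exact h4
    rw [X_pow_dvd_iff] at hN ⊢
    intro m hm
    rcases Nat.lt_succ_iff_lt_or_eq.1 hm with h5 | h5
    · exact hN m h5
    · rw [h5]; exact hc'

/-- the linear coefficients of two parameter changes -/
lemma coeff_subst_lead {τ : ℂ⟦X⟧} (h : constantCoeff τ = 0) {e : ℕ} {f : ℂ⟦X⟧}
    (hf : (X : ℂ⟦X⟧) ^ e ∣ D f) :
    coeff (e + 1) (f.subst τ) = coeff (e + 1) f * coeff 1 τ ^ (e + 1) := by
  obtain ⟨g, hg, hg0⟩ := decomp hf
  rw [subst_decomp h hg, map_add]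
  obtain ⟨t, ht⟩ := dvd_self_of_zero h
  have c1 : coeff 1 τ = constantCoeff t := by
    rw [ht]; simpa using coeff_succ_X_mul 0 t
  have : τ ^ (e + 1) * subst τ g = X ^ (e + 1) * (t ^ (e + 1) * subst τ g) := by
    conv_lhs => rw [show τ ^ (e + 1) = (X * t) ^ (e + 1) by rw [← ht]]
    ring
  rw [this, coeff_X_pow_mul']
  simp only [le_refl, if_true, Nat.sub_self, coeff_zero_eq_constantCoeff, map_mul, map_pow]
  rw [const_subst h, hg0, ← c1, coeff_C]
  simp
  ring

/-- solving f ∘ τ ≡ g, refinement of an approximate solution -/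
lemma refine_solution {e : ℕ} {f g : ℂ⟦X⟧} (hf : HasOrd e (D f)) {τ₀ : ℂ⟦X⟧} (h0 : Par τ₀)
    {q₀ : ℕ} (hq₀ : e + 2 ≤ q₀) (hc : (X : ℂ⟦X⟧) ^ q₀ ∣ f.subst τ₀ - g) :
    ∀ q, q₀ ≤ q → ∃ τ, Par τ ∧ coeff 1 τ = coeff 1 τ₀ ∧ (X : ℂ⟦X⟧) ^ (q₀ - e) ∣ τ - τ₀ ∧
      (X : ℂ⟦X⟧) ^ q ∣ f.subst τ - g := by
  intro q hq
  induction q, hq using Nat.le_induction with
  | base => exact ⟨τ₀, h0, rfl, by simp, hc⟩
  | succ q hq ih =>
    obtain ⟨τ, hτ, hl, hd, hg⟩ := ih
    set c := coeff q (f.subst τ - g) with hcdef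
    set κ : ℂ := coeff (e + 1) f * ((e + 1) * coeff 1 τ ^ e) with hκ
    have hfe : coeff (e + 1) f ≠ 0 := by
      intro h0'; apply hf.2; rw [coeff_D, h0', zero_mul]
    have hκ0 : κ ≠ 0 := by
      rw [hκ]
      exact mul_ne_zero hfe (mul_ne_zero (Nat.cast_add_one_ne_zero e) (pow_ne_zero _ hτ.one))
    have hqe : q - e + e = q := by omega
    set τ' : ℂ⟦X⟧ := τ - X ^ (q - e) * C (c / κ) with hτ'
    have hdiff : τ' - τ = X ^ (q - e) * (- C (c / κ)) := by rw [hτ']; ring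
    have hdiff' : (X : ℂ⟦X⟧) ^ (q - e) ∣ τ' - τ := by rw [hdiff]; exact dvd_mul_right _ _
    have hz : constantCoeff τ' = 0 := by
      rw [hτ', map_sub, hτ.zero, map_mul, map_pow, constantCoeff_X, zero_pow (by omega)]
      simp
    have ho : coeff 1 τ' = coeff 1 τ := by
      have := (X_pow_dvd_iff.1 hdiff') 1 (by omega)
      rw [map_sub, sub_eq_zero] at this
      exact this
    refine ⟨τ', ⟨hz, by rw [ho]; exact hτ.one⟩, by rw [ho, hl], ?_, ?_⟩
    · have : τ' - τ₀ = (τ' - τ) + (τ - τ₀) := by ring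
      rw [this]
      exact dvd_add (dvd_mono (by omega) hdiff') hd
    · have hsplit : f.subst τ' - g = (f.subst τ' - f.subst τ) + (f.subst τ - g) := by ring
      have hc1 := coeff_subst_sub hz hτ.zero ho hdiff' hf.1
      have hd1 := subst_close' hz hτ.zero hdiff' hf.1
      rw [hqe] at hc1 hd1
      rw [X_pow_dvd_iff]
      intro m hm
      rw [hsplit, map_add]
      rcases Nat.lt_succ_iff_lt_or_eq.1 hm with h5 | h5
      · rw [(X_pow_dvd_iff.1 hd1) m h5, (X_pow_dvd_iff.1 hg) m h5, add_zero]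
      · rw [h5, hc1, ho, ← hcdef, hdiff, coeff_X_pow_mul']
        simp only [le_refl, if_true, Nat.sub_self, coeff_zero_eq_constantCoeff, map_neg,
          constantCoeff_C]
        have : coeff (e + 1) f * ((e + 1) * coeff 1 τ ^ e * -(c / κ)) = - (κ * (c / κ)) := by
          rw [hκ]; ring
        rw [this, mul_div_cancel₀ _ hκ0]
        ring

/-- solving f ∘ τ ≡ g from scratch -/
lemma exists_solution {e : ℕ} {f g : ℂ⟦X⟧} (hf : HasOrd e (D f)) (hg : HasOrd e (D g))
    (h0 : constantCoeff f = constantCoeff g) (q : ℕ) :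
    ∃ τ, Par τ ∧ (X : ℂ⟦X⟧) ^ q ∣ f.subst τ - g := by
  have hfe : coeff (e + 1) f ≠ 0 := by
    intro h0'; apply hf.2; rw [coeff_D, h0', zero_mul]
  have hge : coeff (e + 1) g ≠ 0 := by
    intro h0'; apply hg.2; rw [coeff_D, h0', zero_mul]
  obtain ⟨l, hl⟩ := IsAlgClosed.exists_pow_nat_eq (coeff (e + 1) g / coeff (e + 1) f)
    (Nat.succ_pos e)
  have hl0 : l ≠ 0 := by
    rintro rfl
    rw [zero_pow (Nat.succ_ne_zero e)] at hl
    exact div_ne_zero hge hfe hl.symm
  set τ₀ : ℂ⟦X⟧ := X * C l with hτ₀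
  have hz : constantCoeff τ₀ = 0 := by simp [hτ₀]
  have ho : coeff 1 τ₀ = l := by
    have := coeff_succ_X_mul 0 (C l : ℂ⟦X⟧)
    simpa [hτ₀] using this
  have hpar : Par τ₀ := ⟨hz, by rw [ho]; exact hl0⟩
  have hc : (X : ℂ⟦X⟧) ^ (e + 2) ∣ f.subst τ₀ - g := by
    obtain ⟨F, hF, hF0⟩ := decomp hf.1
    obtain ⟨G, hG, hG0⟩ := decomp hg.1
    have h3 : f.subst τ₀ - g = X ^ (e + 1) * (C (l ^ (e + 1)) * F.subst τ₀ - G) := by
      rw [subst_decomp hz hF]
      conv_lhs => rw [hG]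
      rw [h0, hτ₀, mul_pow, ← map_pow]
      ring
    rw [h3, pow_succ]
    apply mul_dvd_mul_left
    rw [X_dvd_iff, map_sub, map_mul, const_subst hz, hF0, hG0, constantCoeff_C]
    rw [show l ^ (e + 1) = l ^ (e.succ) from rfl, hl, div_mul_cancel₀ _ hfe, sub_self]
  obtain ⟨τ, hτ, -, -, h5⟩ := refine_solution hf hpar le_rfl hc (max q (e + 2)) (le_max_right _ _)
  exact ⟨τ, hτ, dvd_mono (le_max_left _ _) h5⟩

/-- one prolongation step, in active coordinates -/
structure Up {n : ℕ} (a : Fin n) (A B : Fin n → ℂ⟦X⟧) : Prop where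
  keep : B a = A a
  slope : ∀ b, b ≠ a → D (A b) = B b * D (A a)

lemma Up.comp {n : ℕ} {a : Fin n} {A B : Fin n → ℂ⟦X⟧} (h : Up a A B) {τ : ℂ⟦X⟧}
    (hτ : constantCoeff τ = 0) : Up a (fun b => (A b).subst τ) (fun b => (B b).subst τ) := by
  refine ⟨by simp only [h.keep], ?_⟩
  intro b hb
  rw [D_subst hτ, D_subst hτ, h.slope b hb, subst_mul (hs hτ)]
  ring

lemma D_sub (f g : ℂ⟦X⟧) : D (f - g) = D f - D g := by simp [D]

lemma D_add (f g : ℂ⟦X⟧) : D (f + g) = D f + D g := by simp [D]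

/-- going up, two close curves stay close -/
lemma Up.close {n : ℕ} {a : Fin n} {A B A' B' : Fin n → ℂ⟦X⟧} (h : Up a A B) (h' : Up a A' B')
    {e s : ℕ} (ho : HasOrd e (D (A a)))
    (hc : ∀ b, (X : ℂ⟦X⟧) ^ (s + e + 1) ∣ A b - A' b) :
    ∀ b, (X : ℂ⟦X⟧) ^ s ∣ B b - B' b := by
  intro b
  by_cases hb : b = a
  · subst hb
    rw [h.keep, h'.keep]
    exact dvd_mono (by omega) (hc b)
  · apply dvd_cancel ho
    have : (B b - B' b) * D (A a) = D (A b - A' b) - B' b * D (A a - A' a) := by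
      rw [D_sub, D_sub, h.slope b hb, h'.slope b hb]; ring
    rw [this]
    apply dvd_sub
    · exact dvd_D (hc b)
    · exact Dvd.dvd.mul_left (dvd_D (hc a)) _

/-- centred order bound passes to substitutions -/
lemma subst_sub_const {τ : ℂ⟦X⟧} (h : constantCoeff τ = 0) {e : ℕ} {f : ℂ⟦X⟧}
    (hf : (X : ℂ⟦X⟧) ^ e ∣ D f) : (X : ℂ⟦X⟧) ^ (e + 1) ∣ f.subst τ - C (constantCoeff f) := by
  obtain ⟨g, hg, -⟩ := decomp hf
  rw [subst_decomp h hg, add_sub_cancel_left]
  exact Dvd.dvd.mul_right (dvd_pow_of_zero h _) _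

lemma sub_const {e : ℕ} {f : ℂ⟦X⟧}
    (hf : (X : ℂ⟦X⟧) ^ e ∣ D f) : (X : ℂ⟦X⟧) ^ (e + 1) ∣ f - C (constantCoeff f) := by
  obtain ⟨g, hg, -⟩ := decomp hf
  conv_rhs => rw [hg]
  rw [map_add, add_sub_assoc]
  simp

/-- the descent lemma: contact at level i+1 gives more contact at level i -/
lemma Up.descent {n : ℕ} {a : Fin n} {A B A' B' : Fin n → ℂ⟦X⟧} (h : Up a A B) (h' : Up a A' B')
    (hA : ∀ b, constantCoeff (A b) = constantCoeff (A' b))
    (hB : ∀ b, constantCoeff (B b) = constantCoeff (B' b))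
    {e e' ρ : ℕ} (ho : HasOrd e (D (A a))) (ho' : HasOrd e (D (A' a))) (he : e' ≤ e)
    (hb : ∀ b, (X : ℂ⟦X⟧) ^ e' ∣ D (B b)) (hb' : ∀ b, (X : ℂ⟦X⟧) ^ e' ∣ D (B' b))
    (hc : ∃ τ, Par τ ∧ ∀ b, (X : ℂ⟦X⟧) ^ ρ ∣ (B b).subst τ - B' b) :
    ∃ τ, Par τ ∧ ∀ b, (X : ℂ⟦X⟧) ^ (ρ + e' + 1) ∣ (A b).subst τ - A' b := by
  -- it is enough to find a good parameter change
  have main : ∀ (τ : ℂ⟦X⟧), Par τ →
      (X : ℂ⟦X⟧) ^ (ρ + e + e' + 2) ∣ (A a).subst τ - A' a →
      (∀ b, b ≠ a → (X : ℂ⟦X⟧) ^ (ρ + e' - e) ∣ (B b).subst τ - B' b) →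
      ∀ b, (X : ℂ⟦X⟧) ^ (ρ + e' + 1) ∣ (A b).subst τ - A' b := by
    intro τ hτ h1 h2 b
    by_cases hba : b = a
    · subst hba; exact dvd_mono (by omega) h1
    · apply dvd_of_D
      · have hcomp := h.comp hτ.zero
        have : D ((A b).subst τ - A' b) =
            ((B b).subst τ - B' b) * D ((A a).subst τ) + B' b * D ((A a).subst τ - A' a) := by
          rw [D_sub, D_sub, hcomp.slope b hba, h'.slope b hba]; ring
        rw [this]
        apply dvd_add
        · have h3 : HasOrd e (D ((A a).subst τ)) := by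
            rw [D_subst hτ.zero]
            have := (hasOrd_subst hτ ho).mul hτ.hasOrd_D
            simpa using this
          have h4 : (X : ℂ⟦X⟧) ^ (ρ + e') ∣ X ^ (ρ + e' - e) * X ^ e := by
            rw [← pow_add]; exact pow_dvd_pow _ (by omega)
          exact h4.trans (mul_dvd_mul (h2 b hba) h3.1)
        · apply Dvd.dvd.mul_left
          exact dvd_mono (by omega) (dvd_D (s := ρ + e + e' + 1) h1)
      · rw [map_sub, const_subst hτ.zero, hA b, sub_self]
  rcases Nat.lt_or_ge e.succ ρ with hρ | hρ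
  · -- the close case
    obtain ⟨τ₀, hτ₀, hτc⟩ := hc
    have hca : (X : ℂ⟦X⟧) ^ ρ ∣ (A a).subst τ₀ - A' a := by
      have := hτc a
      rwa [h.keep, h'.keep] at this
    obtain ⟨τ, hτ, -, hd, hg⟩ := refine_solution ho hτ₀ (by omega) hca (ρ + e + e' + 2) (by omega)
    refine ⟨τ, hτ, main τ hτ hg ?_⟩
    intro b hba
    have h5 : (B b).subst τ - B' b = ((B b).subst τ - (B b).subst τ₀) +
        ((B b).subst τ₀ - B' b) := by ring
    rw [h5]
    apply dvd_add
    · exact dvd_mono (by omega) (subst_close' hτ.zero hτ₀.zero hd (hb b))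
    · exact dvd_mono (by omega) (hτc b)
  · -- the far case
    obtain ⟨τ, hτ, hg⟩ := exists_solution ho ho' (hA a) (ρ + e + e' + 2)
    refine ⟨τ, hτ, main τ hτ hg ?_⟩
    intro b hba
    have h5 : (B b).subst τ - B' b = ((B b).subst τ - C (constantCoeff (B b))) -
        (B' b - C (constantCoeff (B' b))) := by rw [hB b]; ring
    rw [h5]
    apply dvd_sub
    · exact dvd_mono (by omega) (subst_sub_const hτ.zero (hb b))
    · exact dvd_mono (by omega) (sub_const (hb' b))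

/-! ### chains -/

section chain

variable {n k : ℕ} {p : TowerPoint n k}

/-- the values of the active coordinates at the level `i` point -/
def cval (p : TowerPoint n k) : ℕ → Fin n → ℂ
  | 0, b => p.base b
  | i + 1, b => if b = p.piv i then cval p i b else p.dir i b

lemma IsLift.up {γ : Fin n → ℂ⟦X⟧} {A : ℕ → Fin n → ℂ⟦X⟧} (h : IsLift p γ A) {i : ℕ} (hi : i < k) :
    Up (p.piv i) (A i) (A (i + 1)) := ⟨h.retain i hi, h.slope i hi⟩

lemma IsLift.cval {γ : Fin n → ℂ⟦X⟧} {A : ℕ → Fin n → ℂ⟦X⟧} (h : IsLift p γ A) :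
    ∀ i ≤ k, ∀ b, constantCoeff (A i b) = cval p i b := by
  intro i
  induction i with
  | zero => intro _ b; rw [h.start]; exact h.base b
  | succ i ih =>
    intro hi b
    by_cases hb : b = p.piv i
    · subst hb
      rw [h.retain i (by omega), ih (by omega)]
      simp [NoJetId.cval]
    · rw [h.value i (by omega) b hb]
      simp [NoJetId.cval, hb]

/-- critical at level i -/
def Crit (p : TowerPoint n k) (i : ℕ) (a : Fin n) : Prop :=
  ∃ j < i, p.piv j = a ∧ ∀ l, j < l → l < i → p.dir l a = 0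

/-- T_i, expressed with the orders e -/
def TT (e : ℕ → ℕ) (k i : ℕ) : ℕ := 1 + ∑ l ∈ Finset.Ico i k, (e l + 1)

lemma TT_succ (e : ℕ → ℕ) {k i : ℕ} (h : i < k) : TT e k i = TT e k (i + 1) + (e i + 1) := by
  unfold TT
  rw [Finset.sum_eq_sum_Ico_succ_bot h]
  ring

lemma TT_self (e : ℕ → ℕ) (k : ℕ) : TT e k k = 1 := by simp [TT]

/-- a good lift : a lift witnessing membership in Germ -/
structure Good (p : TowerPoint n k) (A : ℕ → Fin n → ℂ⟦X⟧) : Prop where
  lift : IsLift p (A 0) A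
  reg : ∀ a, p.Critical a → coeff 1 (A k a) ≠ 0

/-- the orders of the pivots of a good lift, and the comparison of two good lifts -/
lemma crit_orders {A A' : ℕ → Fin n → ℂ⟦X⟧} (h : Good p A) (h' : Good p A') (e : ℕ → ℕ)
    (he : ∀ i < k, HasOrd (e i) (D (A i (p.piv i)))) :
    ∀ d i, i + d = k → ∀ a, Crit p i a →
      ∃ o, HasOrd o (D (A i a)) ∧ HasOrd o (D (A' i a)) ∧ o + 1 ≤ TT e k i := by
  intro d
  induction d with
  | zero =>
    intro i hi a ha
    obtain rfl : i = k := by omega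
    refine ⟨0, ⟨by simp, ?_⟩, ⟨by simp, ?_⟩, by rw [TT_self]⟩
    · rw [coeff_one_mul_of]; exact h.reg a ha
    · rw [coeff_one_mul_of]; exact h'.reg a ha
  | succ d ih =>
    intro i hi a ha
    have hik : i < k := by omega
    have hpc : Crit p (i + 1) (p.piv i) := ⟨i, by omega, rfl, fun l h1 h2 => by omega⟩
    obtain ⟨o, ho1, ho2, ho3⟩ := ih (i + 1) (by omega) _ hpc
    rw [h.lift.retain i hik] at ho1
    rw [h'.lift.retain i hik] at ho2
    have hoe : o = e i := ho1.unique (he i hik)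
    subst hoe
    have hT := TT_succ e hik
    by_cases hap : a = p.piv i
    · subst hap
      exact ⟨e i, ho1, ho2, by rw [hT]; omega⟩
    by_cases hd : p.dir i a = 0
    · have hac : Crit p (i + 1) a := by
        obtain ⟨j, hj, hja, hl⟩ := ha
        refine ⟨j, by omega, hja, fun l h1 h2 => ?_⟩
        rcases Nat.lt_succ_iff_lt_or_eq.1 h2 with h3 | h3
        · exact hl l h1 h3
        · rw [h3]; exact hd
      obtain ⟨q, hq1, hq2, hq3⟩ := ih (i + 1) (by omega) _ hac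
      have up1 : HasOrd (q + 1) (A (i + 1) a) := by
        refine ⟨dvd_of_D hq1.1 ?_, ?_⟩
        · rw [h.lift.value i hik a hap, hd]
        · intro h0; apply hq1.2; rw [coeff_D, h0, zero_mul]
      have up2 : HasOrd (q + 1) (A' (i + 1) a) := by
        refine ⟨dvd_of_D hq2.1 ?_, ?_⟩
        · rw [h'.lift.value i hik a hap, hd]
        · intro h0; apply hq2.2; rw [coeff_D, h0, zero_mul]
      refine ⟨q + 1 + e i, ?_, ?_, by rw [hT]; omega⟩
      · have := h.lift.slope i hik a hap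
        change D (A i a) = _ at this
        rw [this]; exact up1.mul ho1
      · have := h'.lift.slope i hik a hap
        change D (A' i a) = _ at this
        rw [this]; exact up2.mul ho2
    · have up1 : HasOrd 0 (A (i + 1) a) := by
        refine ⟨by simp, ?_⟩
        rw [coeff_zero_eq_constantCoeff, h.lift.value i hik a hap]; exact hd
      have up2 : HasOrd 0 (A' (i + 1) a) := by
        refine ⟨by simp, ?_⟩
        rw [coeff_zero_eq_constantCoeff, h'.lift.value i hik a hap]; exact hd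
      refine ⟨e i, ?_, ?_, by rw [hT]; omega⟩
      · have := h.lift.slope i hik a hap
        change D (A i a) = _ at this
        rw [this]; simpa using up1.mul ho1
      · have := h'.lift.slope i hik a hap
        change D (A' i a) = _ at this
        rw [this]; simpa using up2.mul ho2

/-- common orders of the pivots -/
structure Orders (p : TowerPoint n k) (e : ℕ → ℕ) : Prop where
  ord : ∀ A, Good p A → ∀ i < k, HasOrd (e i) (D (A i (p.piv i)))
  bound : ∀ i < k, e i + 1 ≤ TT e k (i + 1)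

lemma orders_of_good {A : ℕ → Fin n → ℂ⟦X⟧} (h : Good p A) : ∃ e, Orders p e ∧ e k = 0 := by
  classical
  have : ∀ i, ∃ o, (i < k → HasOrd o (D (A i (p.piv i)))) ∧ (k ≤ i → o = 0) := by
    intro i
    by_cases hi : i < k
    · obtain ⟨o, ho⟩ := exists_hasOrd (h.lift.indep i hi)
      exact ⟨o, fun _ => ho, fun h => by omega⟩
    · exact ⟨0, fun h => absurd h hi, fun _ => rfl⟩
  choose e he hek using this
  refine ⟨e, ⟨?_, ?_⟩, hek k le_rfl⟩
  · intro A' h' i hi
    have hpc : Crit p (i + 1) (p.piv i) := ⟨i, by omega, rfl, fun l h1 h2 => by omega⟩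
    obtain ⟨o, ho1, ho2, -⟩ := crit_orders h h' e he (k - (i + 1)) (i + 1) (by omega) _ hpc
    rw [h.lift.retain i hi] at ho1
    rw [h'.lift.retain i hi] at ho2
    rw [(he i hi).unique ho1]; exact ho2
  · intro i hi
    have hpc : Crit p (i + 1) (p.piv i) := ⟨i, by omega, rfl, fun l h1 h2 => by omega⟩
    obtain ⟨o, ho1, -, ho3⟩ := crit_orders h h e he (k - (i + 1)) (i + 1) (by omega) _ hpc
    rw [h.lift.retain i hi] at ho1
    rw [(he i hi).unique ho1]; exact ho3

lemma Good.all_dvd {A : ℕ → Fin n → ℂ⟦X⟧} (h : Good p A) {e : ℕ → ℕ} (he : Orders p e) {i : ℕ}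
    (hi : i < k) (b : Fin n) : (X : ℂ⟦X⟧) ^ (e i) ∣ D (A i b) := by
  by_cases hb : b = p.piv i
  · subst hb; exact (he.ord A h i hi).1
  · have := h.lift.slope i hi b hb
    change D (A i b) = _ at this
    rw [this]
    exact Dvd.dvd.mul_left (he.ord A h i hi).1 _

lemma Orders.anti {A : ℕ → Fin n → ℂ⟦X⟧} (h : Good p A) {e : ℕ → ℕ} (he : Orders p e) {i : ℕ}
    (hi : i + 1 < k) : e (i + 1) ≤ e i := by
  have h1 := h.all_dvd he hi (p.piv i)
  rw [h.lift.retain i (by omega)] at h1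
  exact (he.ord A h i (by omega)).le_of_dvd h1

lemma Orders.last (he : ∃ A, Good p A) {e : ℕ → ℕ} (ho : Orders p e) {i : ℕ} (hi : i + 1 = k) :
    e i = 0 := by
  obtain ⟨A, h⟩ := he
  have := ho.bound i (by omega)
  rw [hi, TT_self] at this
  omega

/-- contact of two good lifts : descent from level k to level i -/
lemma contact {A A' : ℕ → Fin n → ℂ⟦X⟧} (h : Good p A) (h' : Good p A') {e : ℕ → ℕ}
    (he : Orders p e) (hek : e k = 0) :
    ∀ d i, i + d = k → ∃ τ, Par τ ∧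
      ∀ b, (X : ℂ⟦X⟧) ^ (1 + ∑ l ∈ Finset.Ico (i + 1) (k + 1), (e l + 1)) ∣
        (A i b).subst τ - A' i b := by
  intro d
  induction d with
  | zero =>
    intro i hi
    obtain rfl : i = k := by omega
    refine ⟨X, ⟨by simp, by simp⟩, ?_⟩
    intro b
    simp only [Finset.Ico_self, Finset.sum_empty, add_zero, pow_one]
    rw [X_dvd_iff, map_sub, const_subst (by simp), h.lift.cval i le_rfl, h'.lift.cval i le_rfl,
      sub_self]
  | succ d ih =>
    intro i hi
    have hik : i < k := by omega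
    have hc := ih (i + 1) (by omega)
    have hle : e (i + 1) ≤ e i := by
      rcases Nat.lt_or_ge (i + 1) k with h1 | h1
      · exact Orders.anti h he h1
      · have : i + 1 = k := by omega
        rw [this, hek]; exact Nat.zero_le _
    have hdv : ∀ {B : ℕ → Fin n → ℂ⟦X⟧}, Good p B → ∀ b, (X : ℂ⟦X⟧) ^ e (i + 1) ∣ D (B (i + 1) b) := by
      intro B hB b
      rcases Nat.lt_or_ge (i + 1) k with h1 | h1
      · exact hB.all_dvd he h1 b
      · have : i + 1 = k := by omega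
        rw [this, hek]; simp
    obtain ⟨τ, hτ, hd⟩ := (h.lift.up hik).descent (h'.lift.up hik)
      (fun b => by rw [h.lift.cval i hik.le, h'.lift.cval i hik.le])
      (fun b => by rw [h.lift.cval (i + 1) hik, h'.lift.cval (i + 1) hik])
      (he.ord A h i hik) (he.ord A' h' i hik) hle (hdv h) (hdv h') hc
    refine ⟨τ, hτ, ?_⟩
    intro b
    have := hd b
    have hsum : 1 + ∑ l ∈ Finset.Ico (i + 1) (k + 1), (e l + 1) =
        1 + ∑ l ∈ Finset.Ico (i + 1 + 1) (k + 1), (e l + 1) + e (i + 1) + 1 := by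
      rw [Finset.sum_eq_sum_Ico_succ_bot (show i + 1 < k + 1 by omega)]
      ring
    rw [hsum]; exact this

end chain

/-! ### polynomials and integration -/

/-- polynomial power series -/
def IsPoly (f : ℂ⟦X⟧) : Prop := ∃ P : Polynomial ℂ, f = (P : ℂ⟦X⟧)

lemma isPoly_of_coeff {f : ℂ⟦X⟧} (N : ℕ) (h : ∀ i, N ≤ i → coeff i f = 0) : IsPoly f := by
  refine ⟨trunc N f, ?_⟩
  ext i
  rw [Polynomial.coeff_coe, coeff_trunc]
  split_ifs with h1
  · rfl
  · exact h i (by omega)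

lemma IsPoly.add {f g : ℂ⟦X⟧} (hf : IsPoly f) (hg : IsPoly g) : IsPoly (f + g) := by
  obtain ⟨P, rfl⟩ := hf
  obtain ⟨Q, rfl⟩ := hg
  exact ⟨P + Q, by simp⟩

lemma IsPoly.mul {f g : ℂ⟦X⟧} (hf : IsPoly f) (hg : IsPoly g) : IsPoly (f * g) := by
  obtain ⟨P, rfl⟩ := hf
  obtain ⟨Q, rfl⟩ := hg
  exact ⟨P * Q, by simp⟩

lemma IsPoly.D {f : ℂ⟦X⟧} (hf : IsPoly f) : IsPoly (D f) := by
  obtain ⟨P, rfl⟩ := hf
  exact ⟨Polynomial.derivative P, derivative_coe P⟩

lemma isPoly_C (c : ℂ) : IsPoly (C c : ℂ⟦X⟧) := ⟨Polynomial.C c, by simp⟩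

lemma isPoly_X : IsPoly (X : ℂ⟦X⟧) := ⟨Polynomial.X, by simp⟩

lemma isPoly_X_pow (s : ℕ) : IsPoly ((X : ℂ⟦X⟧) ^ s) := ⟨Polynomial.X ^ s, by simp⟩

/-- formal primitive with zero constant term -/
def prim (f : ℂ⟦X⟧) : ℂ⟦X⟧ :=
  PowerSeries.mk fun i => if i = 0 then 0 else coeff (i - 1) f / i

lemma D_prim (f : ℂ⟦X⟧) : D (prim f) = f := by
  ext i
  rw [coeff_D, prim, coeff_mk, if_neg (Nat.succ_ne_zero i), Nat.add_sub_cancel, Nat.cast_add,
    Nat.cast_one, div_mul_cancel₀ _ (Nat.cast_add_one_ne_zero i)]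

lemma const_prim (f : ℂ⟦X⟧) : constantCoeff (prim f) = 0 := by
  rw [← coeff_zero_eq_constantCoeff_apply, prim, coeff_mk, if_pos rfl]

lemma IsPoly.prim {f : ℂ⟦X⟧} (hf : IsPoly f) : IsPoly (prim f) := by
  obtain ⟨P, rfl⟩ := hf
  apply isPoly_of_coeff (P.natDegree + 2)
  intro i hi
  rw [NoJetId.prim, coeff_mk, if_neg (by omega), Polynomial.coeff_coe,
    Polynomial.coeff_eq_zero_of_natDegree_lt (by omega), zero_div]

lemma IsPoly.convergent {f : ℂ⟦X⟧} (hf : IsPoly f) : Convergent f := by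
  obtain ⟨P, rfl⟩ := hf
  refine ⟨1, one_pos, ?_⟩
  apply summable_of_ne_finset_zero (s := P.support)
  intro i hi
  rw [Polynomial.notMem_support_iff] at hi
  simp [Polynomial.coeff_coe, hi]

section chain2

variable {n k : ℕ} {p : TowerPoint n k}

lemma isLift_of_chain {A : ℕ → Fin n → ℂ⟦X⟧}
    (hup : ∀ i < k, Up (p.piv i) (A i) (A (i + 1)))
    (hc : ∀ i ≤ k, ∀ b, constantCoeff (A i b) = cval p i b)
    (hn : ∀ i < k, D (A i (p.piv i)) ≠ 0) : IsLift p (A 0) A := by
  refine ⟨rfl, fun b => hc 0 (Nat.zero_le _) b, hn, fun i hi => (hup i hi).keep,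
    fun i hi => (hup i hi).slope, ?_⟩
  intro i hi b hb
  rw [hc (i + 1) hi, cval, if_neg hb]

/-- integrating down from level `l` -/
lemma down (p : TowerPoint n k) : ∀ l, ∀ B : Fin n → ℂ⟦X⟧, (∀ b, IsPoly (B b)) →
    (∀ b, constantCoeff (B b) = cval p l b) → (∀ b, D (B b) ≠ 0) →
    ∃ A : ℕ → Fin n → ℂ⟦X⟧, A l = B ∧ (∀ i < l, Up (p.piv i) (A i) (A (i + 1))) ∧
      ∀ i ≤ l, ∀ b, IsPoly (A i b) ∧ constantCoeff (A i b) = cval p i b ∧ D (A i b) ≠ 0 := by
  intro l
  induction l with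
  | zero =>
    intro B h1 h2 h3
    refine ⟨fun _ => B, rfl, fun i hi => by omega, ?_⟩
    intro i hi b
    obtain rfl : i = 0 := by omega
    exact ⟨h1 b, h2 b, h3 b⟩
  | succ l ih =>
    intro B h1 h2 h3
    obtain ⟨A, hA1, hA2, hA3⟩ := ih
      (fun b => if b = p.piv l then B b else C (cval p l b) + prim (B b * D (B (p.piv l))))
      (by
        intro b
        by_cases hb : b = p.piv l
        · simp only [hb, if_true]; exact h1 _
        · simp only [hb, if_false]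
          exact (isPoly_C _).add ((h1 b).mul (h1 _).D).prim)
      (by
        intro b
        by_cases hb : b = p.piv l
        · simp only [hb, if_true]
          rw [h2, cval, if_pos rfl]
        · simp only [hb, if_false]
          rw [map_add, const_prim, constantCoeff_C, add_zero])
      (by
        intro b
        by_cases hb : b = p.piv l
        · simp only [hb, if_true]; exact h3 _
        · simp only [hb, if_false]
          rw [D_add, D_prim]
          have hC : D (C (cval p l b) : ℂ⟦X⟧) = 0 := by simp [D]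
          rw [hC, zero_add]
          apply mul_ne_zero _ (h3 _)
          intro h0
          apply h3 b
          rw [h0]
          simp [D])
    refine ⟨fun i => if i ≤ l then A i else B, by simp, ?_, ?_⟩
    · intro i hi
      rcases Nat.lt_succ_iff_lt_or_eq.1 hi with h4 | h4
      · simp only [h4.le, if_true, show i + 1 ≤ l from h4]
        exact hA2 i h4
      · subst h4
        simp only [le_refl, if_true, show ¬ (i + 1 ≤ i) by omega, if_false, hA1]
        refine ⟨by simp, ?_⟩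
        intro b hb
        simp only [hb, if_false, if_true]
        rw [D_add, D_prim]
        simp [D]
    · intro i hi b
      rcases Nat.le_succ_iff.1 hi with h4 | h4
      · simp only [h4, if_true]; exact hA3 i h4 b
      · subst h4
        simp only [show ¬ (l + 1 ≤ l) by omega, if_false]
        exact ⟨h1 b, h2 b, h3 b⟩

lemma HasOrd.add {m : ℕ} {f g : ℂ⟦X⟧} (hf : HasOrd m f) (hg : (X : ℂ⟦X⟧) ^ (m + 1) ∣ g) :
    HasOrd m (f + g) := by
  refine ⟨dvd_add hf.1 (dvd_mono (by omega) hg), ?_⟩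
  rw [map_add, (X_pow_dvd_iff.1 hg) m (by omega), add_zero]
  exact hf.2

lemma coeff_mul_of_dvd {s : ℕ} {f g : ℂ⟦X⟧} (hg : (X : ℂ⟦X⟧) ^ s ∣ g) :
    coeff s (f * g) = constantCoeff f * coeff s g := by
  obtain ⟨u, rfl⟩ := hg
  have : f * (X ^ s * u) = X ^ s * (f * u) := by ring
  rw [this, coeff_X_pow_mul', coeff_X_pow_mul']
  simp

lemma exists_quot {s m : ℕ} {f g : ℂ⟦X⟧} (hg : HasOrd m g) (hf : (X : ℂ⟦X⟧) ^ (s + m) ∣ f) :
    ∃ q, f = q * g ∧ (X : ℂ⟦X⟧) ^ s ∣ q ∧ coeff s q = coeff (s + m) f / coeff m g := by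
  obtain ⟨u, hu, hu0, huc⟩ := hg.exists_unit
  obtain ⟨v, hv⟩ := hf
  refine ⟨X ^ s * (v * u⁻¹), ?_, dvd_mul_right _ _, ?_⟩
  · rw [hv, hu, pow_add]
    have : u * u⁻¹ = 1 := PowerSeries.mul_inv_cancel u hu0
    calc (X : ℂ⟦X⟧) ^ s * X ^ m * v = X ^ s * X ^ m * v * 1 := by ring
      _ = X ^ s * X ^ m * v * (u * u⁻¹) := by rw [this]
      _ = _ := by ring
  · rw [hv, coeff_X_pow_mul', coeff_X_pow_mul']
    simp only [le_refl, if_true, Nat.sub_self, coeff_zero_eq_constantCoeff, map_mul]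
    rw [PowerSeries.constantCoeff_inv, huc, div_eq_mul_inv]

lemma TT_pos (e : ℕ → ℕ) (k i : ℕ) : 1 ≤ TT e k i := by unfold TT; omega

/-- perturbing a good lift at level `m` and going up -/
lemma perturb_up {A : ℕ → Fin n → ℂ⟦X⟧} (h : Good p A) {e : ℕ → ℕ} (he : Orders p e) {m : ℕ}
    (y : Fin n) : ∀ i, m ≤ i → i ≤ k → ∃ w : Fin n → ℂ, ∀ ε : ℂ, ∃ A' : ℕ → Fin n → ℂ⟦X⟧,
      (∀ b, A' m b = A m b + if b = y then C ε * X ^ (TT e k m) else 0) ∧
      (∀ l, m ≤ l → l < i → Up (p.piv l) (A' l) (A' (l + 1))) ∧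
      (∀ l, m ≤ l → l ≤ i → ∀ b, (X : ℂ⟦X⟧) ^ (TT e k l) ∣ A' l b - A l b) ∧
      (∀ b, coeff (TT e k i) (A' i b - A i b) = ε * w b) := by
  intro i hmi
  induction i, hmi using Nat.le_induction with
  | base =>
    intro _
    refine ⟨fun b => if b = y then 1 else 0, ?_⟩
    intro ε
    refine ⟨fun _ b => A m b + if b = y then C ε * X ^ (TT e k m) else 0, fun b => rfl,
      fun l h1 h2 => by omega, ?_, ?_⟩
    · intro l h1 h2 b
      obtain rfl : l = m := by omega
      simp only [add_sub_cancel_left]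
      split_ifs
      · exact dvd_mul_left _ _
      · exact dvd_zero _
    · intro b
      simp only [add_sub_cancel_left]
      by_cases hb : b = y
      · simp only [hb, if_true]
        rw [coeff_C_mul, coeff_X_pow, if_pos rfl]
      · simp [hb]
  | succ i hmi ih =>
    intro hik
    have hik' : i < k := hik
    obtain ⟨w, hw⟩ := ih hik'.le
    set a := p.piv i with ha
    set α := coeff (e i) (D (A i a)) with hα
    have hT := TT_succ e hik'
    refine ⟨fun b => if b = a then 0 else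
      (w b - constantCoeff (A (i + 1) b) * w a) * (TT e k i) / α, ?_⟩
    intro ε
    obtain ⟨A', hA0, hA1, hA2, hA3⟩ := hw ε
    have hδ := hA2 i hmi le_rfl
    have hordA := he.ord A h i hik'
    have hDA : D (A' i a) = D (A i a) + D (A' i a - A i a) := by rw [D_sub]; ring
    have hTle : TT e k (i + 1) + e i + 1 = TT e k i := by rw [hT]; ring
    have hdd : ∀ b, (X : ℂ⟦X⟧) ^ (TT e k (i + 1) + e i) ∣ D (A' i b - A i b) := by
      intro b
      apply dvd_D
      rw [hTle]; exact hδ b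
    have hTp := TT_pos e k (i + 1)
    have hord' : HasOrd (e i) (D (A' i a)) := by
      rw [hDA]
      exact hordA.add (dvd_mono (by omega) (hdd a))
    have hα' : coeff (e i) (D (A' i a)) = α := by
      rw [hDA, map_add, (X_pow_dvd_iff.1 (hdd a)) (e i) (by omega), add_zero]
    have hq : ∀ b, ∃ q, D (A' i b - A i b) - A (i + 1) b * D (A' i a - A i a) = q * D (A' i a) ∧
        (X : ℂ⟦X⟧) ^ (TT e k (i + 1)) ∣ q ∧
        coeff (TT e k (i + 1)) q = coeff (TT e k (i + 1) + e i)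
          (D (A' i b - A i b) - A (i + 1) b * D (A' i a - A i a)) / α := by
      intro b
      have := exists_quot hord' (s := TT e k (i + 1))
        (f := D (A' i b - A i b) - A (i + 1) b * D (A' i a - A i a))
        (dvd_sub (hdd b) (Dvd.dvd.mul_left (hdd a) _))
      rwa [hα'] at this
    choose q hq1 hq2 hq3 using hq
    refine ⟨fun l => if l ≤ i then A' l else
      fun b => if b = a then A' i a else A (i + 1) b + q b, ?_, ?_, ?_, ?_⟩
    · intro b
      simp only [hmi, if_true]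
      exact hA0 b
    · intro l h1 h2
      rcases Nat.lt_succ_iff_lt_or_eq.1 h2 with h3 | h3
      · simp only [h3.le, if_true, show l + 1 ≤ i from h3]
        exact hA1 l h1 h3
      · subst h3
        simp only [le_refl, if_true, show ¬ (l + 1 ≤ l) by omega, if_false]
        refine ⟨by simp [← ha], ?_⟩
        intro b hb
        rw [← ha] at hb ⊢
        simp only [hb, if_false]
        have hs := h.lift.slope l hik' b hb
        change D (A l b) = A (l + 1) b * D (A l a) at hs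
        have h5 := hq1 b
        rw [D_sub, D_sub, hs] at h5
        linear_combination h5
    · intro l h1 h2 b
      rcases Nat.le_succ_iff.1 h2 with h3 | h3
      · simp only [h3, if_true]; exact hA2 l h1 h3 b
      · subst h3
        simp only [show ¬ (i + 1 ≤ i) by omega, if_false]
        by_cases hb : b = a
        · simp only [hb, if_true]
          have : A (i + 1) a = A i a := h.lift.retain i hik'
          rw [this]
          exact dvd_mono (show TT e k (i + 1) ≤ TT e k i by omega) (hδ a)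
        · simp only [hb, if_false, add_sub_cancel_left]
          exact hq2 b
    · intro b
      simp only [show ¬ (i + 1 ≤ i) by omega, if_false]
      by_cases hb : b = a
      · simp only [hb, if_true]
        have : A (i + 1) a = A i a := h.lift.retain i hik'
        rw [this, (X_pow_dvd_iff.1 (hδ a)) (TT e k (i + 1)) (by omega), mul_zero]
      · simp only [hb, if_false, add_sub_cancel_left]
        rw [hq3 b, map_sub, coeff_mul_of_dvd (hdd a), coeff_D, coeff_D, hTle, hA3 b, hA3 a]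
        have : ((TT e k (i + 1) + e i : ℕ) : ℂ) + 1 = (TT e k i : ℕ) := by
          rw [← hTle]; push_cast; ring
        rw [this]
        ring

end chain2

section family

variable {n k : ℕ} {p : TowerPoint n k}

/-- the base member of `Germ p` -/
lemma exists_base (p : TowerPoint n k) : ∃ A : ℕ → Fin n → ℂ⟦X⟧, Good p A ∧
    (∀ i ≤ k, ∀ b, IsPoly (A i b) ∧ D (A i b) ≠ 0) ∧ ∀ b, coeff 1 (A k b) = 1 := by
  obtain ⟨A, hA1, hA2, hA3⟩ := down p k (fun b => C (cval p k b) + X)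
    (fun b => (isPoly_C _).add isPoly_X) (fun b => by simp) (fun b => by simp [D])
  have h1 : ∀ b, coeff 1 (A k b) = 1 := by
    intro b
    rw [hA1]
    simp [coeff_C]
  refine ⟨A, ⟨isLift_of_chain hA2 (fun i hi b => (hA3 i hi b).2.1)
    (fun i hi => (hA3 i hi.le _).2.2), ?_⟩, ?_, h1⟩
  · intro a _
    rw [h1]; exact one_ne_zero
  · intro i hi b
    exact ⟨(hA3 i hi b).1, (hA3 i hi b).2.2⟩

/-- the perturbed family -/
lemma exists_family {A : ℕ → Fin n → ℂ⟦X⟧} (h : Good p A)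
    (hpoly : ∀ i ≤ k, ∀ b, IsPoly (A i b) ∧ D (A i b) ≠ 0) (hone : ∀ b, coeff 1 (A k b) = 1)
    {e : ℕ → ℕ} (he : Orders p e) {m : ℕ} (hm : m ≤ k) (y : Fin n) :
    ∃ bad : Set ℂ, bad.Finite ∧ ∀ ε, ε ∉ bad → ∃ A' : ℕ → Fin n → ℂ⟦X⟧, Good p A' ∧
      (∀ b, IsPoly (A' 0 b) ∧ D (A' 0 b) ≠ 0) ∧
      ∀ b, A' m b = A m b + if b = y then C ε * X ^ (TT e k m) else 0 := by
  classical
  obtain ⟨w, hw⟩ := perturb_up h he (m := m) y k hm le_rfl
  set σ := TT e k m with hσ
  have hσ1 : 1 ≤ σ := TT_pos e k m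
  refine ⟨({- coeff σ (A m y)} : Set ℂ) ∪ Set.range (fun b : Fin n => - (1 / w b)), ?_, ?_⟩
  · exact (Set.finite_singleton _).union (Set.finite_range _)
  intro ε hε
  rw [Set.mem_union, not_or] at hε
  obtain ⟨hε1, hε2⟩ := hε
  obtain ⟨A', hA0, hA1, hA2, hA3⟩ := hw ε
  have hc' : ∀ l, m ≤ l → l ≤ k → ∀ b, constantCoeff (A' l b) = cval p l b := by
    intro l h1 h2 b
    have h3 := hA2 l h1 h2 b
    have h4 := (X_pow_dvd_iff.1 h3) 0 (TT_pos e k l)
    rw [map_sub, sub_eq_zero, coeff_zero_eq_constantCoeff, h.lift.cval l h2] at h4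
    exact h4
  obtain ⟨B, hB1, hB2, hB3⟩ := down p m (A' m)
    (by
      intro b
      rw [hA0 b]
      apply (hpoly m hm b).1.add
      split_ifs
      · exact (isPoly_C _).mul (isPoly_X_pow _)
      · exact ⟨0, by simp⟩)
    (fun b => hc' m le_rfl hm b)
    (by
      intro b
      by_cases hb : b = y
      · intro h0
        apply hε1
        have h5 : coeff (σ - 1) (D (A' m b)) = 0 := by rw [h0]; simp
        rw [coeff_D, Nat.sub_add_cancel hσ1, hA0 b, hb, if_pos rfl, map_add, coeff_C_mul,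
          coeff_X_pow, if_pos rfl, mul_one] at h5
        rcases mul_eq_zero.1 h5 with h6 | h6
        · rw [Set.mem_singleton_iff]
          exact eq_neg_of_add_eq_zero_right h6
        · exact absurd h6 (Nat.cast_add_one_ne_zero (σ - 1))
      · rw [hA0 b, if_neg hb, add_zero]
        exact (hpoly m hm b).2)
  set F : ℕ → Fin n → ℂ⟦X⟧ := fun l => if l ≤ m then B l else A' l with hF
  have hFup : ∀ l, m ≤ l → F l = A' l := by
    intro l hl
    rcases Nat.lt_or_ge m l with h1 | h1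
    · simp only [hF, show ¬ (l ≤ m) by omega, if_false]
    · obtain rfl : l = m := by omega
      simp only [hF, le_refl, if_true]; exact hB1
  have hFdn : ∀ l, l ≤ m → F l = B l := by
    intro l hl
    simp only [hF, hl, if_true]
  have hup : ∀ i < k, Up (p.piv i) (F i) (F (i + 1)) := by
    intro i hi
    rcases Nat.lt_or_ge i m with h1 | h1
    · rw [hFdn i h1.le, hFdn (i + 1) h1]; exact hB2 i h1
    · rw [hFup i h1, hFup (i + 1) (by omega)]; exact hA1 i h1 hi
  have hcF : ∀ i ≤ k, ∀ b, constantCoeff (F i b) = cval p i b := by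
    intro i hi b
    rcases Nat.lt_or_ge i m with h1 | h1
    · rw [hFdn i h1.le]; exact (hB3 i h1.le b).2.1
    · rw [hFup i h1]; exact hc' i h1 hi b
  have hnF : ∀ i < k, D (F i (p.piv i)) ≠ 0 := by
    intro i hi
    rcases Nat.lt_or_ge i m with h1 | h1
    · rw [hFdn i h1.le]; exact (hB3 i h1.le _).2.2
    · rw [hFup i h1]
      have h2 := hA2 i h1 hi.le (p.piv i)
      have h3 : D (A' i (p.piv i)) = D (A i (p.piv i)) + D (A' i (p.piv i) - A i (p.piv i)) := by
        rw [D_sub]; ring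
      have hT := TT_succ e hi
      have hTp := TT_pos e k (i + 1)
      rw [h3]
      apply HasOrd.ne_zero (a := e i)
      apply (he.ord A h i hi).add
      apply dvd_D
      exact dvd_mono (by omega) h2
  refine ⟨F, ⟨isLift_of_chain hup hcF hnF, ?_⟩, ?_, ?_⟩
  · intro a _
    rw [hFup k hm]
    have h6 := hA3 a
    rw [TT_self, map_sub, hone a] at h6
    intro h7
    rw [h7] at h6
    apply hε2
    rw [Set.mem_range]
    refine ⟨a, ?_⟩
    have hw0 : w a ≠ 0 := by
      intro h8; rw [h8, mul_zero] at h6; norm_num at h6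
    field_simp
    linear_combination h6
  · intro b
    rw [hFdn 0 (Nat.zero_le _)]
    exact ⟨(hB3 0 (Nat.zero_le _) b).1, (hB3 0 (Nat.zero_le _) b).2.2⟩
  · intro b
    rw [hFup m le_rfl]; exact hA0 b

lemma Good.mem_germ {A : ℕ → Fin n → ℂ⟦X⟧} (h : Good p A) (hk : 1 ≤ k)
    (hc : ∀ b, Convergent (A 0 b)) (hn : ∃ b, D (A 0 b) ≠ 0) : A 0 ∈ p.Germ := by
  refine ⟨⟨hc, hn⟩, A, h.lift, ?_, h.reg⟩
  exact ⟨p.piv (k - 1), h.reg _ ⟨k - 1, by omega, rfl, fun l h1 h2 => by omega⟩⟩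

lemma good_of_mem {γ : Fin n → ℂ⟦X⟧} (h : γ ∈ p.Germ) : ∃ A, Good p A ∧ A 0 = γ := by
  obtain ⟨-, A, hA, -, hr⟩ := h
  refine ⟨A, ⟨?_, hr⟩, hA.start⟩
  rw [hA.start]; exact hA

lemma finite_pow (m : ℕ) (hm : 0 < m) (c : ℂ) : {l : ℂ | l ^ m = c}.Finite := by
  apply (Polynomial.nthRoots m c).toFinset.finite_toSet.subset
  intro l hl
  simp only [Finset.mem_coe, Multiset.mem_toFinset]
  exact (Polynomial.mem_nthRoots hm).2 hl

lemma D_hasOrd {m : ℕ} {f : ℂ⟦X⟧} (h : HasOrd (m + 1) f) : HasOrd m (D f) := by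
  refine ⟨dvd_D h.1, ?_⟩
  rw [coeff_D]
  exact mul_ne_zero h.2 (Nat.cast_add_one_ne_zero m)

end family

section main

variable {n k : ℕ} {p : TowerPoint n k}

/-- The combinatorial data of a non-Cartan point. -/
structure Drop (p : TowerPoint n k) (e : ℕ → ℕ) (j : ℕ) (x y z : Fin n) : Prop where
  j_pos : 1 ≤ j
  j_lt : j < k
  drop : e j < e 0
  const : ∀ i < j, e i = e 0
  piv_lt : ∀ i < j, p.piv i = x
  piv_j : p.piv j = y
  xy : x ≠ y
  zx : z ≠ x
  zy : z ≠ y

lemma exists_third (hn : 3 ≤ n) (x y : Fin n) : ∃ z : Fin n, z ≠ x ∧ z ≠ y := by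
  by_contra h
  push Not at h
  have h1 : (Finset.univ : Finset (Fin n)) ⊆ {x, y} := by
    intro z _
    by_cases hz : z = x
    · simp [hz]
    · simp [h z hz]
  have h2 := Finset.card_le_card h1
  have h3 : ({x, y} : Finset (Fin n)).card ≤ 2 := Finset.card_le_two
  simp at h2
  omega

lemma exists_drop (hn : 3 ≤ n) (hk : 1 ≤ k) {A : ℕ → Fin n → ℂ⟦X⟧} (h : Good p A) {e : ℕ → ℕ}
    (he : Orders p e) (h0 : e 0 ≠ 0) : ∃ j x y z, Drop p e j x y z := by
  classical
  have hlast : e (k - 1) = 0 := he.last ⟨A, h⟩ (by omega)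
  have hex : ∃ j, e j < e 0 := ⟨k - 1, by omega⟩
  have hj := Nat.find_spec hex
  have hjk : Nat.find hex ≤ k - 1 := Nat.find_min' hex (by omega)
  set j := Nat.find hex with hjdef
  have hj1 : 1 ≤ j := by
    by_contra h1
    have : j = 0 := by omega
    rw [this] at hj; omega
  have hanti : ∀ i, i < k → e i ≤ e 0 := by
    intro i
    induction i with
    | zero => intro _; exact le_rfl
    | succ i ih => intro hi; exact (Orders.anti h he hi).trans (ih (by omega))
  have hconst : ∀ i < j, e i = e 0 := by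
    intro i hi
    have h1 := Nat.find_min hex hi
    have h2 := hanti i (by omega)
    omega
  have hpiv : ∀ i, i < j → p.piv i = p.piv 0 := by
    intro i
    induction i with
    | zero => intro _; rfl
    | succ i ih =>
      intro hi
      rw [← ih (by omega)]
      apply p.keep i (by omega)
      intro hd
      by_cases hp : p.piv (i + 1) = p.piv i
      · have := p.dir_piv (i + 1) (by omega)
        rw [hp, hd] at this
        exact zero_ne_one this
      · have hs := h.lift.slope (i + 1) (by omega) (p.piv i) (fun h => hp h.symm)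
        change D (A (i + 1) (p.piv i)) = _ at hs
        have hv := h.lift.value (i + 1) (by omega) (p.piv i) (fun h => hp h.symm)
        rw [hd] at hv
        have h1 : (X : ℂ⟦X⟧) ^ (1 + e (i + 1)) ∣ D (A (i + 1) (p.piv i)) := by
          rw [hs, pow_add, pow_one]
          exact mul_dvd_mul (X_dvd_iff.2 hv) (he.ord A h (i + 1) (by omega)).1
        rw [h.lift.retain i (by omega)] at h1
        have h2 := (he.ord A h i (by omega)).le_of_dvd h1
        rw [hconst i (by omega), hconst (i + 1) hi] at h2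
        omega
  obtain ⟨z, hz1, hz2⟩ := exists_third hn (p.piv 0) (p.piv j)
  refine ⟨j, p.piv 0, p.piv j, z, hj1, by omega, hj, hconst, hpiv, rfl, ?_, hz1, hz2⟩
  intro hxy
  have h1 := he.ord A h j (by omega)
  have h2 := he.ord A h (j - 1) (by omega)
  have h3 := h.lift.retain (j - 1) (by omega)
  rw [show j - 1 + 1 = j by omega] at h3
  rw [← h3, hpiv (j - 1) (by omega), hxy] at h2
  have h4 := h1.unique h2
  rw [hconst (j - 1) (by omega)] at h4
  omega

/-- The case of small `r` : a perturbation in a third direction leaves `Germ p`. -/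
lemma case_small {e : ℕ → ℕ} (he : Orders p e) (hek : e k = 0) {j : ℕ} {x y z : Fin n}
    (hd : Drop p e j x y z) {r : ℕ} (hr : r < j * (e 0 + 1) + TT e k (j + 1))
    {β : Fin n → ℕ → ℂ} (hβ : p.Germ = {γ | CurveGerm γ ∧ JetRep r γ β}) : False := by
  classical
  set σ := TT e k (j + 1) with hσ
  have hσ1 : 1 ≤ σ := TT_pos e k (j + 1)
  set S := j * (e 0 + 1) + σ with hS
  set G : ℂ → Fin n → ℂ⟦X⟧ := fun ε b =>
    (PowerSeries.mk fun i => if i ≤ r then β b i else 0) + if b = z then C ε * X ^ S else 0 with hG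
  have hGmem : ∀ ε : ℂ, ε ≠ 0 → G ε ∈ p.Germ := by
    intro ε hε
    rw [hβ]
    refine ⟨⟨?_, z, ?_⟩, X, ?_, by simp, by simp, ?_⟩
    · intro b
      apply IsPoly.convergent
      apply IsPoly.add
      · exact isPoly_of_coeff (r + 1) (fun i hi => by
          rw [coeff_mk, if_neg (by omega)])
      · split_ifs
        · exact (isPoly_C _).mul (isPoly_X_pow _)
        · exact ⟨0, by simp⟩
    · intro h0
      have h1 : coeff (S - 1) (D (G ε z)) = 0 := by
        change coeff (S - 1) (d⁄dX ℂ (G ε z)) = 0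
        rw [h0]; simp
      rw [coeff_D, Nat.sub_add_cancel (by omega)] at h1
      have h2 : coeff S (G ε z) = ε := by
        simp only [hG, if_true, map_add, coeff_mk, coeff_C_mul, coeff_X_pow]
        rw [if_neg (by omega)]
        simp
      rw [h2] at h1
      rcases mul_eq_zero.1 h1 with h3 | h3
      · exact hε h3
      · exact absurd h3 (Nat.cast_add_one_ne_zero (S - 1))
    · exact isPoly_X.convergent
    · intro b i hi
      rw [X_subst]
      simp only [hG, map_add, coeff_mk, if_pos hi]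
      split_ifs with hb
      · rw [coeff_C_mul, coeff_X_pow, if_neg (by omega)]
        simp
      · simp
  have hgood : ∀ ε : ℂ, ∃ A : ℕ → Fin n → ℂ⟦X⟧, ε ≠ 0 → Good p A ∧ A 0 = G ε := by
    intro ε
    by_cases hε : ε = 0
    · exact ⟨fun _ _ => 0, fun h => absurd hε h⟩
    · obtain ⟨A, hA1, hA2⟩ := good_of_mem (hGmem ε hε)
      exact ⟨A, fun _ => ⟨hA1, hA2⟩⟩
  choose A hA using hgood
  -- comparison up to level j
  have hcmp : ∀ ε₁ ε₂ : ℂ, ε₁ ≠ 0 → ε₂ ≠ 0 → ε₁ ≠ ε₂ → ∀ i, i ≤ j →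
      (∀ b, b ≠ z → A ε₁ i b = A ε₂ i b) ∧
      HasOrd ((j - i) * (e 0 + 1) + σ) (A ε₁ i z - A ε₂ i z) := by
    intro ε₁ ε₂ h1 h2 h12 i
    induction i with
    | zero =>
      intro _
      rw [(hA ε₁ h1).2, (hA ε₂ h2).2]
      constructor
      · intro b hb
        simp [hG, hb]
      · have : G ε₁ z - G ε₂ z = X ^ S * C (ε₁ - ε₂) := by
          simp only [hG, if_true, map_sub]; ring
        rw [this, Nat.sub_zero]
        apply hasOrd_of_unit
        rw [constantCoeff_C]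
        exact sub_ne_zero.2 h12
    | succ i ih =>
      intro hi
      obtain ⟨ih1, ih2⟩ := ih (by omega)
      have g1 := (hA ε₁ h1).1
      have g2 := (hA ε₂ h2).1
      have hik : i < k := by have := hd.j_lt; omega
      have hpx : p.piv i = x := hd.piv_lt i (by omega)
      have ho1 := he.ord _ g1 i hik
      rw [hpx] at ho1
      rw [hd.const i (by omega)] at ho1
      have hxx : A ε₁ i x = A ε₂ i x := ih1 x hd.zx.symm
      have hsl1 : ∀ b, b ≠ x → D (A ε₁ i b) = A ε₁ (i + 1) b * D (A ε₁ i x) := by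
        intro b hb
        have := g1.lift.slope i hik b (by rw [hpx]; exact hb)
        rwa [hpx] at this
      have hsl2 : ∀ b, b ≠ x → D (A ε₂ i b) = A ε₂ (i + 1) b * D (A ε₁ i x) := by
        intro b hb
        have := g2.lift.slope i hik b (by rw [hpx]; exact hb)
        rw [hpx, ← hxx] at this
        exact this
      have hr1 : A ε₁ (i + 1) x = A ε₁ i x := by
        have := g1.lift.retain i hik; rwa [hpx] at this
      have hr2 : A ε₂ (i + 1) x = A ε₂ i x := by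
        have := g2.lift.retain i hik; rwa [hpx] at this
      constructor
      · intro b hb
        by_cases hbx : b = x
        · rw [hbx, hr1, hr2, hxx]
        · have h3 := hsl1 b hbx
          have h4 := hsl2 b hbx
          rw [ih1 b hb, h4] at h3
          exact (mul_right_cancel₀ ho1.ne_zero h3).symm
      · apply hasOrd_of_mul ho1
        have h5 : (A ε₁ (i + 1) z - A ε₂ (i + 1) z) * D (A ε₁ i x) =
            D (A ε₁ i z - A ε₂ i z) := by
          rw [D_sub, hsl1 z hd.zx, hsl2 z hd.zx]; ring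
        rw [h5]
        apply D_hasOrd
        have h6 : (j - (i + 1)) * (e 0 + 1) + σ + e 0 + 1 = (j - i) * (e 0 + 1) + σ := by
          have : j - i = (j - (i + 1)) + 1 := by omega
          rw [this]; ring
        rw [h6]
        exact ih2
  -- contact at level j
  have hsum : 1 + ∑ l ∈ Finset.Ico (j + 1) (k + 1), (e l + 1) = σ + 1 := by
    rw [Finset.sum_Ico_succ_top (by have := hd.j_lt; omega), hek, hσ, TT]
    ring
  have hcont : ∀ ε : ℂ, ∃ τ : ℂ⟦X⟧, ε ≠ 0 → Par τ ∧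
      ∀ b, (X : ℂ⟦X⟧) ^ (σ + 1) ∣ (A 1 j b).subst τ - A ε j b := by
    intro ε
    by_cases hε : ε = 0
    · exact ⟨0, fun h => absurd hε h⟩
    · obtain ⟨τ, h1, h2⟩ := contact (hA 1 one_ne_zero).1 (hA ε hε).1 he hek (k - j) j
        (by have := hd.j_lt; omega)
      rw [hsum] at h2
      exact ⟨τ, fun _ => ⟨h1, h2⟩⟩
  choose τ hτ using hcont
  set V := A 1 j y with hV
  have hVe : ∀ ε : ℂ, ε ≠ 0 → A ε j y = V := by
    intro ε hε
    by_cases h1 : ε = 1
    · rw [h1]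
    · exact (hcmp ε 1 hε one_ne_zero h1 j le_rfl).1 y hd.zy.symm
  have hVo : HasOrd (e j) (D V) := by
    have := he.ord _ (hA 1 one_ne_zero).1 j hd.j_lt
    rwa [hd.piv_j] at this
  have hbd : e j + 1 ≤ σ := he.bound j hd.j_lt
  have hroot : ∀ ε : ℂ, ε ≠ 0 → coeff 1 (τ ε) ^ (e j + 1) = 1 := by
    intro ε hε
    obtain ⟨h1, h2⟩ := hτ ε hε
    have h3 := h2 y
    rw [hVe ε hε] at h3
    have h4 := (X_pow_dvd_iff.1 h3) (e j + 1) (by omega)
    rw [map_sub, coeff_subst_lead h1.zero hVo.1] at h4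
    have hVc : coeff (e j + 1) V ≠ 0 := by
      intro h0; apply hVo.2; rw [coeff_D, h0, zero_mul]
    have h5 : coeff (e j + 1) V * (coeff 1 (τ ε) ^ (e j + 1) - 1) = 0 := by
      rw [← h4]; ring
    rcases mul_eq_zero.1 h5 with h6 | h6
    · exact absurd h6 hVc
    · exact sub_eq_zero.1 h6
  have hinf : (({0} : Set ℂ)ᶜ).Infinite := (Set.finite_singleton (0 : ℂ)).infinite_compl
  obtain ⟨ε₁, h1, ε₂, h2, hne, hl⟩ := hinf.exists_ne_map_eq_of_mapsTo
    (f := fun ε => coeff 1 (τ ε)) (t := {l : ℂ | l ^ (e j + 1) = 1})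
    (fun ε hε => hroot ε hε) (finite_pow _ (Nat.succ_pos _) 1)
  have h1' : ε₁ ≠ 0 := h1
  have h2' : ε₂ ≠ 0 := h2
  obtain ⟨p1, c1⟩ := hτ ε₁ h1'
  obtain ⟨p2, c2⟩ := hτ ε₂ h2'
  have hVV : (X : ℂ⟦X⟧) ^ (σ + 1) ∣ V.subst (τ ε₁) - V.subst (τ ε₂) := by
    have h3 := c1 y
    have h4 := c2 y
    rw [hVe ε₁ h1'] at h3
    rw [hVe ε₂ h2'] at h4
    have : V.subst (τ ε₁) - V.subst (τ ε₂) = (V.subst (τ ε₁) - V) - (V.subst (τ ε₂) - V) := by
      ring
    rw [this]
    exact dvd_sub h3 h4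
  have hclose := par_close p1 p2 hl hVo (σ + 1 - e j)
    (by rw [show σ + 1 - e j + e j = σ + 1 by omega]; exact hVV)
  have hZ : (X : ℂ⟦X⟧) ^ (e j) ∣ D (A 1 j z) := (hA 1 one_ne_zero).1.all_dvd he hd.j_lt z
  have hZZ := subst_close' p1.zero p2.zero hclose hZ
  rw [show σ + 1 - e j + e j = σ + 1 by omega] at hZZ
  have hfin : (X : ℂ⟦X⟧) ^ (σ + 1) ∣ A ε₁ j z - A ε₂ j z := by
    have : A ε₁ j z - A ε₂ j z = ((A 1 j z).subst (τ ε₁) - (A 1 j z).subst (τ ε₂)) -
        ((A 1 j z).subst (τ ε₁) - A ε₁ j z) + ((A 1 j z).subst (τ ε₂) - A ε₂ j z) := by ring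
    rw [this]
    exact dvd_add (dvd_sub hZZ (c1 z)) (c2 z)
  have hord := (hcmp ε₁ ε₂ h1' h2' hne j le_rfl).2
  rw [Nat.sub_self, zero_mul, zero_add] at hord
  have := hord.le_of_dvd hfin
  omega


/-- The case of large `r` : two members of `Germ p` have different jets. -/
lemma case_large {A : ℕ → Fin n → ℂ⟦X⟧} (h : Good p A)
    (hpoly : ∀ i ≤ k, ∀ b, IsPoly (A i b) ∧ D (A i b) ≠ 0) (hone : ∀ b, coeff 1 (A k b) = 1)
    {e : ℕ → ℕ} (he : Orders p e) {j : ℕ} {x y z : Fin n}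
    (hd : Drop p e j x y z) {r : ℕ} (hr : j * (e 0 + 1) + TT e k (j + 1) ≤ r)
    {β : Fin n → ℕ → ℂ} (hβ : p.Germ = {γ | CurveGerm γ ∧ JetRep r γ β}) : False := by
  classical
  have hjk := hd.j_lt
  have hj1 := hd.j_pos
  obtain ⟨bad, hbad, hfam⟩ := exists_family h hpoly hone he (m := j + 1) (by omega) y
  set σ := TT e k (j + 1) with hσ
  have hσ1 : 1 ≤ σ := TT_pos e k (j + 1)
  have hbd : e j + 1 ≤ σ := he.bound j hjk
  set S := j * (e 0 + 1) + σ with hS
  -- choose the family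
  have hch : ∀ ε : ℂ, ∃ (F : ℕ → Fin n → ℂ⟦X⟧) (τ : ℂ⟦X⟧), ε ∉ bad → Good p F ∧
      (∀ b, F (j + 1) b = A (j + 1) b + if b = y then C ε * X ^ σ else 0) ∧ Par τ ∧
      ∀ b, ∀ i ≤ r, coeff i ((F 0 b).subst τ) = β b i := by
    intro ε
    by_cases hε : ε ∈ bad
    · exact ⟨fun _ _ => 0, 0, fun h => absurd hε h⟩
    · obtain ⟨F, hF1, hF2, hF3⟩ := hfam ε hε
      have hmem := hF1.mem_germ (by omega) (fun b => (hF2 b).1.convergent) ⟨y, (hF2 y).2⟩
      rw [hβ] at hmem
      obtain ⟨-, τ, -, h1, h2, h3⟩ := hmem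
      exact ⟨F, τ, fun _ => ⟨hF1, hF3, ⟨h1, h2⟩, h3⟩⟩
  choose F τ hFτ using hch
  set V := A (j + 1) y with hV
  set U := A (j + 1) x with hU
  have hFx : ∀ ε, ε ∉ bad → F ε (j + 1) x = U := by
    intro ε hε
    rw [(hFτ ε hε).2.1 x, if_neg hd.xy, add_zero]
  have hFy : ∀ ε, ε ∉ bad → F ε j y = V + C ε * X ^ σ := by
    intro ε hε
    have h1 := (hFτ ε hε).1.lift.retain j hjk
    rw [hd.piv_j] at h1
    rw [← h1, (hFτ ε hε).2.1 y, if_pos rfl]
  -- order of V, U
  have hAy : A (j + 1) y = A j y := by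
    have h1 := h.lift.retain j hjk
    rwa [hd.piv_j] at h1
  have hVo : HasOrd (e j) (D V) := by
    have h1 := he.ord A h j hjk
    rw [hd.piv_j] at h1
    rw [hV, hAy]; exact h1
  have hxo : HasOrd (e 0) (D (A j x)) := by
    have h1 := he.ord A h (j - 1) (by omega)
    rw [hd.piv_lt (j - 1) (by omega), hd.const (j - 1) (by omega)] at h1
    have h2 := h.lift.retain (j - 1) (by omega)
    rw [show j - 1 + 1 = j by omega, hd.piv_lt (j - 1) (by omega)] at h2
    rw [h2]; exact h1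
  have hUslope : D (A j x) = U * D V := by
    have h1 := h.lift.slope j hjk x (by rw [hd.piv_j]; exact hd.xy)
    rw [hd.piv_j, ← hAy] at h1
    exact h1
  have hdrop := hd.drop
  obtain ⟨μ, hμ⟩ : ∃ μ, e 0 = μ + 1 + e j := ⟨e 0 - e j - 1, by omega⟩
  have hUo : HasOrd (μ + 1) U := by
    apply hasOrd_of_mul hVo
    rw [← hUslope, ← hμ]; exact hxo
  have hDU : HasOrd μ (D U) := D_hasOrd hUo
  -- comparison of two members
  have hcmp : ∀ ε₁ ε₂ : ℂ, ε₁ ∉ bad → ε₂ ∉ bad → ∀ i, i ≤ j → ∀ b,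
      (X : ℂ⟦X⟧) ^ (σ + 1 + (j - i) * (e 0 + 1)) ∣
        (F ε₁ i b).subst (τ ε₁) - (F ε₂ i b).subst (τ ε₂) := by
    intro ε₁ ε₂ h1 h2 i
    induction i with
    | zero =>
      intro _ b
      obtain ⟨-, -, -, c1⟩ := hFτ ε₁ h1
      obtain ⟨-, -, -, c2⟩ := hFτ ε₂ h2
      rw [X_pow_dvd_iff]
      intro m hm
      have hmr : m ≤ r := by
        rw [Nat.sub_zero] at hm; omega
      rw [map_sub, c1 b m hmr, c2 b m hmr, sub_self]
    | succ i ih =>
      intro hi
      obtain ⟨g1, -, t1, -⟩ := hFτ ε₁ h1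
      obtain ⟨g2, -, t2, -⟩ := hFτ ε₂ h2
      have hik : i < k := by omega
      have u1 := (g1.lift.up hik).comp t1.zero
      have u2 := (g2.lift.up hik).comp t2.zero
      have ho : HasOrd (e 0) (D ((F ε₁ i (p.piv i)).subst (τ ε₁))) := by
        rw [D_subst t1.zero]
        have h3 := he.ord _ g1 i hik
        rw [hd.const i (by omega)] at h3
        simpa using (hasOrd_subst t1 h3).mul t1.hasOrd_D
      apply u1.close u2 ho
      intro b
      have h4 := ih (by omega) b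
      have h5 : σ + 1 + (j - (i + 1)) * (e 0 + 1) + e 0 + 1 = σ + 1 + (j - i) * (e 0 + 1) := by
        have : j - i = (j - (i + 1)) + 1 := by omega
        rw [this]; ring
      rw [h5]; exact h4
  have hUU : ∀ ε₁ ε₂ : ℂ, ε₁ ∉ bad → ε₂ ∉ bad →
      (X : ℂ⟦X⟧) ^ (μ + 1 + σ - e j) ∣ U.subst (τ ε₁) - U.subst (τ ε₂) := by
    intro ε₁ ε₂ h1 h2
    obtain ⟨g1, -, t1, -⟩ := hFτ ε₁ h1
    obtain ⟨g2, -, t2, -⟩ := hFτ ε₂ h2
    have u1 := (g1.lift.up hjk).comp t1.zero
    have u2 := (g2.lift.up hjk).comp t2.zero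
    have s1 := u1.slope x (by rw [hd.piv_j]; exact hd.xy)
    have s2 := u2.slope x (by rw [hd.piv_j]; exact hd.xy)
    rw [hd.piv_j, hFx ε₁ h1] at s1
    rw [hd.piv_j, hFx ε₂ h2] at s2
    have ho : HasOrd (e j) (D ((F ε₁ j y).subst (τ ε₁))) := by
      rw [D_subst t1.zero]
      have h3 := he.ord _ g1 j hjk
      rw [hd.piv_j] at h3
      simpa using (hasOrd_subst t1 h3).mul t1.hasOrd_D
    apply dvd_cancel ho
    have key : (U.subst (τ ε₁) - U.subst (τ ε₂)) * D ((F ε₁ j y).subst (τ ε₁)) =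
        D ((F ε₁ j x).subst (τ ε₁) - (F ε₂ j x).subst (τ ε₂)) -
        U.subst (τ ε₂) * D ((F ε₁ j y).subst (τ ε₁) - (F ε₂ j y).subst (τ ε₂)) := by
      rw [D_sub, D_sub, s1, s2]; ring
    rw [key, show μ + 1 + σ - e j + e j = μ + 1 + σ by omega]
    apply dvd_sub
    · apply dvd_D
      have h3 := hcmp ε₁ ε₂ h1 h2 (j - 1) (by omega) x
      have r1 := g1.lift.retain (j - 1) (by omega)
      have r2 := g2.lift.retain (j - 1) (by omega)
      rw [show j - 1 + 1 = j by omega, hd.piv_lt (j - 1) (by omega)] at r1 r2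
      rw [r1, r2]
      have h4 : j - (j - 1) = 1 := by omega
      rw [h4, one_mul] at h3
      exact dvd_mono (by omega) h3
    · rw [pow_add]
      apply mul_dvd_mul
      · exact dvd_subst t2.zero hUo.1
      · apply dvd_D
        have h3 := hcmp ε₁ ε₂ h1 h2 j le_rfl y
        rwa [Nat.sub_self, zero_mul, add_zero] at h3
  -- the linear coefficients lie in a finite set
  obtain ⟨ε₀, hε₀⟩ : ∃ ε₀, ε₀ ∉ bad := hbad.infinite_compl.nonempty
  have hroot : ∀ ε : ℂ, ε ∉ bad → coeff 1 (τ ε) ^ (μ + 1) = coeff 1 (τ ε₀) ^ (μ + 1) := by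
    intro ε hε
    have h1 := (X_pow_dvd_iff.1 (hUU ε ε₀ hε hε₀)) (μ + 1) (by omega)
    rw [map_sub, coeff_subst_lead (hFτ ε hε).2.2.1.zero hDU.1,
      coeff_subst_lead (hFτ ε₀ hε₀).2.2.1.zero hDU.1] at h1
    have h2 : coeff (μ + 1) U * (coeff 1 (τ ε) ^ (μ + 1) - coeff 1 (τ ε₀) ^ (μ + 1)) = 0 := by
      rw [← h1]; ring
    rcases mul_eq_zero.1 h2 with h3 | h3
    · exact absurd h3 hUo.2
    · exact sub_eq_zero.1 h3
  obtain ⟨ε₁, h1, ε₂, h2, hne, hl⟩ := hbad.infinite_compl.exists_ne_map_eq_of_mapsTo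
    (f := fun ε => coeff 1 (τ ε)) (t := {l : ℂ | l ^ (μ + 1) = coeff 1 (τ ε₀) ^ (μ + 1)})
    (fun ε hε => hroot ε hε) (finite_pow _ (Nat.succ_pos _) _)
  have h1' : ε₁ ∉ bad := h1
  have h2' : ε₂ ∉ bad := h2
  have p1 := (hFτ ε₁ h1').2.2.1
  have p2 := (hFτ ε₂ h2').2.2.1
  have hclose := par_close p1 p2 hl hDU (σ + 1 - e j)
    (by rw [show σ + 1 - e j + μ = μ + 1 + σ - e j by omega]; exact hUU ε₁ ε₂ h1' h2')
  have hVV := subst_close' p1.zero p2.zero hclose hVo.1
  rw [show σ + 1 - e j + e j = σ + 1 by omega] at hVV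
  have hyy := hcmp ε₁ ε₂ h1' h2' j le_rfl y
  rw [Nat.sub_self, zero_mul, add_zero, hFy ε₁ h1', hFy ε₂ h2'] at hyy
  have hsub : ∀ ε : ℂ, ∀ t : ℂ⟦X⟧, constantCoeff t = 0 →
      (V + C ε * X ^ σ).subst t = V.subst t + C ε * t ^ σ := by
    intro ε t ht
    rw [subst_add (hs ht), subst_mul (hs ht), subst_pow (hs ht), subst_X (hs ht)]
    congr 2
    exact subst_C _
  rw [hsub _ _ p1.zero, hsub _ _ p2.zero] at hyy
  have hfin : (X : ℂ⟦X⟧) ^ (σ + 1) ∣ C ε₁ * (τ ε₁) ^ σ - C ε₂ * (τ ε₂) ^ σ := by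
    have : C ε₁ * (τ ε₁) ^ σ - C ε₂ * (τ ε₂) ^ σ =
        (subst (τ ε₁) V + C ε₁ * τ ε₁ ^ σ - (subst (τ ε₂) V + C ε₂ * τ ε₂ ^ σ)) -
        (subst (τ ε₁) V - subst (τ ε₂) V) := by ring
    rw [this]
    exact dvd_sub hyy hVV
  have hco : ∀ t : ℂ⟦X⟧, constantCoeff t = 0 → coeff σ (t ^ σ) = coeff 1 t ^ σ := by
    intro t ht
    obtain ⟨s, hs'⟩ := dvd_self_of_zero ht
    have c1 : coeff 1 t = constantCoeff s := by
      rw [hs']; simpa using coeff_succ_X_mul 0 s
    rw [hs', mul_pow, coeff_X_pow_mul', if_pos le_rfl, Nat.sub_self, coeff_zero_eq_constantCoeff,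
      map_pow, ← c1, hs']
  have h5 := (X_pow_dvd_iff.1 hfin) σ (by omega)
  rw [map_sub, coeff_C_mul, coeff_C_mul, hco _ p1.zero, hco _ p2.zero] at h5
  have hl' : coeff 1 (τ ε₁) = coeff 1 (τ ε₂) := hl
  rw [← hl'] at h5
  have h6 : (ε₁ - ε₂) * coeff 1 (τ ε₁) ^ σ = 0 := by rw [← h5]; ring
  rcases mul_eq_zero.1 h6 with h7 | h7
  · exact hne (sub_eq_zero.1 h7)
  · exact pow_ne_zero _ p1.one h7

theorem main_aux (hn : 3 ≤ n) (hk : 2 ≤ k) (p : TowerPoint n k) (hp : ¬ p.Cartan) (r : ℕ) :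
    ¬ p.HasJetId r := by
  rintro ⟨β, hβ⟩
  obtain ⟨A, hA, hpoly, hone⟩ := exists_base p
  obtain ⟨e, he, hek⟩ := orders_of_good hA
  have h0 : e 0 ≠ 0 := by
    intro h0
    apply hp
    refine ⟨A 0, ⟨fun b => (hpoly 0 (by omega) b).1.convergent, p.piv 0,
      (hpoly 0 (by omega) _).2⟩, ⟨p.piv 0, ?_⟩, A, hA.lift⟩
    have h1 := he.ord A hA 0 (by omega)
    rw [h0] at h1
    have h2 := h1.2
    rw [coeff_one_mul_of] at h2
    exact h2
  obtain ⟨j, x, y, z, hd⟩ := exists_drop hn (by omega) hA he h0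
  rcases Nat.lt_or_ge r (j * (e 0 + 1) + TT e k (j + 1)) with hr | hr
  · exact case_small he hek hd hr hβ
  · exact case_large hA hpoly hone he hd hr hβ

end main

section sanity

/-- Sanity check: for every non-constant curve germ and every level there is a Kumpera-Rúiz
address through which the germ passes (so the addresses cover all points `γ ^ k (0)`). -/
theorem exists_towerPoint {n : ℕ} (γ : Fin n → ℂ⟦X⟧) (hγ : ∃ b, d⁄dX ℂ (γ b) ≠ 0) (k : ℕ) :
    ∃ (p : TowerPoint n k) (A : ℕ → Fin n → ℂ⟦X⟧), IsLift p γ A := by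
  classical
  induction k with
  | zero =>
    obtain ⟨b, -⟩ := hγ
    refine ⟨⟨fun b => constantCoeff (γ b), fun _ => b, fun _ _ => 0, fun i hi => by omega,
      fun i hi => by omega⟩, fun _ => γ, rfl, fun b => rfl, fun i hi => by omega,
      fun i hi => by omega, fun i hi => by omega, fun i hi => by omega⟩
  | succ k ih =>
    obtain ⟨p, A, hA⟩ := ih
    have hnon : ∃ b, D (A k b) ≠ 0 := by
      rcases Nat.eq_zero_or_pos k with h0 | h0
      · subst h0; rw [hA.start]; exact hγ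
      · refine ⟨p.piv (k - 1), ?_⟩
        have h1 := hA.retain (k - 1) (by omega)
        rw [show k - 1 + 1 = k by omega] at h1
        rw [h1]; exact hA.indep (k - 1) (by omega)
    have hex : ∃ o, ∃ b, coeff o (D (A k b)) ≠ 0 := by
      obtain ⟨b, hb⟩ := hnon
      obtain ⟨o, ho⟩ := exists_hasOrd hb
      exact ⟨o, b, ho.2⟩
    set o := Nat.find hex with ho
    obtain ⟨a₀, ha₀⟩ := Nat.find_spec hex
    have hall : ∀ b, (X : ℂ⟦X⟧) ^ o ∣ D (A k b) := by
      intro b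
      rw [X_pow_dvd_iff]
      intro m hm
      have := Nat.find_min hex hm
      push Not at this
      exact this b
    obtain ⟨a, ha, hkeep⟩ : ∃ a, HasOrd o (D (A k a)) ∧
        (∀ i, i + 1 = k → coeff o (D (A k (p.piv i))) ≠ 0 → a = p.piv i) := by
      by_cases hc : ∃ i, i + 1 = k ∧ coeff o (D (A k (p.piv i))) ≠ 0
      · obtain ⟨i, hi, hc⟩ := hc
        refine ⟨p.piv i, ⟨hall _, hc⟩, ?_⟩
        intro i' hi' _
        obtain rfl : i = i' := by omega
        rfl
      · refine ⟨a₀, ⟨hall _, ha₀⟩, ?_⟩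
        intro i hi hci
        exact absurd ⟨i, hi, hci⟩ hc
    have hq : ∀ b, ∃ q, D (A k b) = q * D (A k a) ∧
        (constantCoeff q ≠ 0 → coeff o (D (A k b)) ≠ 0) := by
      intro b
      obtain ⟨q, h1, -, h3⟩ := exists_quot ha (s := 0) (f := D (A k b))
        (by rw [zero_add]; exact hall b)
      refine ⟨q, h1, ?_⟩
      intro h4 h5
      apply h4
      rw [zero_add, h5, zero_div] at h3
      simpa using h3
    choose q hq1 hq2 using hq
    refine ⟨⟨p.base, fun i => if i < k then p.piv i else a,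
      fun i => if i < k then p.dir i else fun b => if b = a then 1 else constantCoeff (q b),
      ?_, ?_⟩, fun i => if i ≤ k then A i else fun b => if b = a then A k a else q b, ?_⟩
    · intro i hi
      rcases Nat.lt_succ_iff_lt_or_eq.1 hi with h1 | h1
      · simp only [h1, if_true]; exact p.dir_piv i h1
      · subst h1
        simp
    · intro i hi hd
      rcases Nat.lt_succ_iff_lt_or_eq.1 hi with h1 | h1
      · simp only [h1, if_true, show i < k by omega] at hd ⊢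
        exact p.keep i h1 hd
      · simp only [h1, lt_irrefl, if_false, show i < k by omega, if_true] at hd ⊢
        by_cases hpa : p.piv i = a
        · exact hpa.symm
        · rw [if_neg hpa] at hd
          exact hkeep i h1 (hq2 _ hd)
    · refine ⟨by simpa using hA.start, hA.base, ?_, ?_, ?_, ?_⟩
      · intro i hi
        rcases Nat.lt_succ_iff_lt_or_eq.1 hi with h1 | h1
        · simp only [h1, h1.le, if_true]; exact hA.indep i h1
        · subst h1
          simp only [le_refl, lt_irrefl, if_true, if_false]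
          exact ha.ne_zero
      · intro i hi
        rcases Nat.lt_succ_iff_lt_or_eq.1 hi with h1 | h1
        · simp only [h1, h1.le, if_true, show i + 1 ≤ k from h1]; exact hA.retain i h1
        · subst h1
          simp
      · intro i hi b hb
        rcases Nat.lt_succ_iff_lt_or_eq.1 hi with h1 | h1
        · simp only [h1, h1.le, if_true, show i + 1 ≤ k from h1] at hb ⊢
          exact hA.slope i h1 b hb
        · subst h1
          simp only [le_refl, lt_irrefl, if_true, if_false, show ¬ (i + 1 ≤ i) by omega] at hb ⊢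
          rw [if_neg hb]
          exact hq1 b
      · intro i hi b hb
        rcases Nat.lt_succ_iff_lt_or_eq.1 hi with h1 | h1
        · simp only [h1, if_true, show i + 1 ≤ k from h1] at hb ⊢
          exact hA.value i h1 b hb
        · subst h1
          simp only [lt_irrefl, if_false, show ¬ (i + 1 ≤ i) by omega] at hb ⊢
          rw [if_neg hb, if_neg hb]

/-- Sanity check: non-Cartan points exist, for instance the point `c ^ 2 (0)` of `P ^ 2 (3)`,
`c = (t ^ 2, t ^ 3, 0)`. -/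
theorem exists_nonCartan : ∃ p : TowerPoint 3 2, ¬ p.Cartan := by
  refine ⟨⟨fun _ => 0, fun i => if i = 0 then 0 else 1,
    fun i b => if i = 0 then (if b = 0 then 1 else 0) else (if b = 1 then 1 else 0), ?_, ?_⟩, ?_⟩
  · intro i hi
    by_cases h : i = 0 <;> simp [h]
  · intro i hi h
    obtain rfl : i = 0 := by omega
    simp at h
  · rintro ⟨γ, -, ⟨b, hb⟩, A, hA⟩
    have h0 : coeff 1 (γ 0) ≠ 0 := by
      intro h0
      have hs0 : ∀ b, b ≠ (0 : Fin 3) → d⁄dX ℂ (γ b) = A 1 b * d⁄dX ℂ (γ 0) := by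
        intro b hb
        have := hA.slope 0 (by omega) b (by simpa using hb)
        simpa [hA.start] using this
      have hc : ∀ f : ℂ⟦X⟧, coeff 0 (d⁄dX ℂ f) = coeff 1 f := by
        intro f; exact coeff_one_mul_of
      by_cases hb0 : b = 0
      · rw [hb0] at hb; exact hb h0
      · apply hb
        rw [← hc, hs0 b hb0, coeff_zero_eq_constantCoeff, map_mul]
        have := hc (γ 0)
        rw [coeff_zero_eq_constantCoeff] at this
        rw [this, h0, mul_zero]
    have h1 : A 1 0 = γ 0 := by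
      have := hA.retain 0 (by omega)
      simpa [hA.start] using this
    have h2 : d⁄dX ℂ (A 1 0) = A 2 0 * d⁄dX ℂ (A 1 1) := by
      have := hA.slope 1 (by omega) 0 (by simp)
      simpa using this
    have h3 : constantCoeff (A 2 0) = 0 := by
      have := hA.value 1 (by omega) 0 (by simp)
      simpa using this
    apply h0
    rw [← h1, ← coeff_one_mul_of]
    change coeff 0 (d⁄dX ℂ (A 1 0)) = 0
    rw [h2, coeff_zero_eq_constantCoeff, map_mul, h3, zero_mul]

end sanity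

/-- For all `n ≥ 3` and `k ≥ 2`, no point of `P^k(n)` other than a Cartan point has a jet
identification number. -/
theorem result (n k : ℕ) (hn : 3 ≤ n) (hk : 2 ≤ k) (p : TowerPoint n k) (hp : ¬ p.Cartan) (r : ℕ) :
    ¬ p.HasJetId r :=
  main_aux hn hk p hp r

end Pool.Agent.Results.MP_0d30b1_gt.NoJetId
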